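import Mathlib

namespace Pool.Agent.H.MP_f64102_gt
open Matrix

abbrev M3 (R : Type) := Matrix (Fin 3) (Fin 3) R

section Ring
variable {R : Type} [CommRing R]

@[simp] theorem one_re : (1 : Quaternion R).re = 1 := rfl
@[simp] theorem one_imI : (1 : Quaternion R).imI = 0 := rfl
@[simp] theorem one_imJ : (1 : Quaternion R).imJ = 0 := rfl
@[simp] theorem one_imK : (1 : Quaternion R).imK = 0 := rfl

def Rm (q : Quaternion R) : M3 R :=
  !![q.re^2+q.imI^2-q.imJ^2-q.imK^2, 2*(q.imI*q.imJ - q.re*q.imK), 2*(q.imI*q.imK+q.re*q.imJ);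
     2*(q.imI*q.imJ+q.re*q.imK), q.re^2-q.imI^2+q.imJ^2-q.imK^2, 2*(q.imJ*q.imK-q.re*q.imI);
     2*(q.imI*q.imK-q.re*q.imJ), 2*(q.imJ*q.imK+q.re*q.imI), q.re^2-q.imI^2-q.imJ^2+q.imK^2]

def cay (A : M3 R) : Quaternion R :=
  ⟨1 + A 0 0 + A 1 1 + A 2 2, A 2 1 - A 1 2, A 0 2 - A 2 0, A 1 0 - A 0 1⟩

def N (q : Quaternion R) : R := q.re^2 + q.imI^2 + q.imJ^2 + q.imK^2

theorem N_mul (p q : Quaternion R) : N (p * q) = N p * N q := by
  simp [N]; ring

theorem N_star (p : Quaternion R) : N (star p) = N p := by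
  simp [N]

theorem N_smul (c : R) (p : Quaternion R) : N (c • p) = c ^ 2 * N p := by
  simp [N]; ring

theorem N_one : N (1 : Quaternion R) = 1 := by simp [N]

theorem mul_star' (p : Quaternion R) : p * star p = N p • (1 : Quaternion R) := by
  ext <;> simp [N] <;> ring

theorem star_mul'' (p : Quaternion R) : star p * p = N p • (1 : Quaternion R) := by
  ext <;> simp [N] <;> ring

theorem Rm_mul (p q : Quaternion R) : Rm (p * q) = Rm p * Rm q := by
  ext i j
  fin_cases i <;> fin_cases j <;> simp [Rm, Matrix.mul_apply, Fin.sum_univ_three] <;> ring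

theorem Rm_star (p : Quaternion R) : Rm (star p) = (Rm p)ᵀ := by
  ext i j
  fin_cases i <;> fin_cases j <;> simp [Rm] <;> ring

theorem Rm_smul (c : R) (p : Quaternion R) : Rm (c • p) = c ^ 2 • Rm p := by
  ext i j
  fin_cases i <;> fin_cases j <;> simp [Rm] <;> ring

theorem Rm_one : Rm (1 : Quaternion R) = 1 := by
  ext i j
  fin_cases i <;> fin_cases j <;> simp [Rm]

theorem Rm_det (p : Quaternion R) : (Rm p).det = N p ^ 3 := by
  simp [Rm, N, Matrix.det_fin_three]; ring

def SO (A : M3 R) : Prop := A * Aᵀ = 1 ∧ A.det = 1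

theorem SO.tm {A : M3 R} (h : SO A) : Aᵀ * A = 1 := mul_eq_one_comm.mp h.1

theorem SO.mul {A B : M3 R} (hA : SO A) (hB : SO B) : SO (A * B) := by
  refine ⟨?_, by rw [det_mul, hA.2, hB.2, one_mul]⟩
  rw [transpose_mul, Matrix.mul_assoc, ← Matrix.mul_assoc B, hB.1, Matrix.one_mul, hA.1]

theorem SO.tr {A : M3 R} (hA : SO A) : SO Aᵀ :=
  ⟨by rw [transpose_transpose, hA.tm], by rw [det_transpose, hA.2]⟩

theorem SO_one : SO (1 : M3 R) := ⟨by simp, by simp⟩

theorem cay_spec {A : M3 R} (h : SO A) :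
    N (cay A) = 4 * (cay A).re ∧ Rm (cay A) = (4 * (cay A).re) • A := by
  have hr := h.1
  have hc := h.tm
  have ha : Aᵀ = A.adjugate := by
    have := adjugate_mul A
    rw [h.2, one_smul] at this
    calc Aᵀ = A.adjugate * A * Aᵀ := by rw [this, Matrix.one_mul]
      _ = _ := by rw [Matrix.mul_assoc, hr, Matrix.mul_one]
  have r := fun i j => congrFun (congrFun hr i) j
  have c := fun i j => congrFun (congrFun hc i) j
  have a := fun i j => congrFun (congrFun ha j) i
  have r00 := r 0 0; have r01 := r 0 1; have r02 := r 0 2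
  have r11 := r 1 1; have r12 := r 1 2; have r22 := r 2 2
  have c00 := c 0 0; have c01 := c 0 1; have c02 := c 0 2
  have c11 := c 1 1; have c12 := c 1 2
  have a00 := a 0 0; have a01 := a 0 1; have a02 := a 0 2
  have a10 := a 1 0; have a11 := a 1 1; have a12 := a 1 2
  have a20 := a 2 0; have a21 := a 2 1; have a22 := a 2 2
  simp [Matrix.mul_apply, Fin.sum_univ_three, adjugate_fin_three] at r00 r01 r02 r11 r12 r22 c00 c01 c02 c11 c12 a00 a01 a02 a10 a11 a12 a20 a21 a22
  refine ⟨?_, ?_⟩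
  · simp only [N, cay]
    linear_combination r00 + r11 + r22 - 2 * a00 - 2 * a11 - 2 * a22
  · ext i j
    fin_cases i <;> fin_cases j <;> simp [Rm, cay]
    · linear_combination (-1) * r00 + (-2) * c00 + r11 + r22 + (-2) * a00 + 2 * a11 + 2 * a22
    · linear_combination (-2) * r01 + (-2) * c01 + (-2) * a01 + (-2) * a10
    · linear_combination (-2) * r02 + (-2) * c02 + (-2) * a02 + (-2) * a20
    · linear_combination (-2) * r01 + (-2) * c01 + (-2) * a01 + (-2) * a10
    · linear_combination r00 + (-1) * r11 + (-2) * c11 + r22 + 2 * a00 + (-2) * a11 + 2 * a22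
    · linear_combination (-2) * r12 + (-2) * c12 + (-2) * a12 + (-2) * a21
    · linear_combination (-2) * r02 + (-2) * c02 + (-2) * a02 + (-2) * a20
    · linear_combination (-2) * r12 + (-2) * c12 + (-2) * a12 + (-2) * a21
    · linear_combination (-1) * r00 + 2 * c00 + (-1) * r11 + 2 * c11 + (-3) * r22 + 2 * a00 + 2 * a11 + (-2) * a22

/-- coordinatewise image of a quaternion -/
def qm {S : Type} [CommRing S] (φ : R →+* S) (q : Quaternion R) : Quaternion S :=
  ⟨φ q.re, φ q.imI, φ q.imJ, φ q.imK⟩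

variable {S : Type} [CommRing S] (φ : R →+* S)

theorem qm_mul (p q : Quaternion R) : qm φ (p * q) = qm φ p * qm φ q := by
  ext <;> simp [qm]
theorem qm_add (p q : Quaternion R) : qm φ (p + q) = qm φ p + qm φ q := by
  ext <;> simp [qm]
theorem qm_star (p : Quaternion R) : qm φ (star p) = star (qm φ p) := by
  ext <;> simp [qm]
theorem qm_smul (c : R) (p : Quaternion R) : qm φ (c • p) = φ c • qm φ p := by
  ext <;> simp [qm]
theorem qm_re (p : Quaternion R) : φ p.re = (qm φ p).re := rfl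
theorem qm_N (p : Quaternion R) : φ (N p) = N (qm φ p) := by simp [qm, N]
theorem qm_cay (A : M3 R) : qm φ (cay A) = cay (A.map φ) := by
  ext <;> simp [qm, cay]

end Ring

section Field
variable {F : Type} [Field F]

noncomputable def rot (q : Quaternion F) : M3 F := (N q)⁻¹ • Rm q

theorem rot_mul (p q : Quaternion F) : rot (p * q) = rot p * rot q := by
  simp only [rot, N_mul, Rm_mul, Matrix.smul_mul, Matrix.mul_smul, smul_smul, mul_inv, mul_comm]

theorem rot_star (p : Quaternion F) : rot (star p) = (rot p)ᵀ := by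
  simp only [rot, N_star, Rm_star, transpose_smul]

theorem rot_smul {c : F} (hc : c ≠ 0) (p : Quaternion F) : rot (c • p) = rot p := by
  simp only [rot, N_smul, Rm_smul, smul_smul]
  congr 1
  field_simp

theorem rot_one : rot (1 : Quaternion F) = 1 := by simp [rot, N_one, Rm_one]

theorem rot_SO {p : Quaternion F} (h : N p ≠ 0) : SO (rot p) := by
  refine ⟨?_, ?_⟩
  · rw [← rot_star, ← rot_mul, mul_star', rot_smul h, rot_one]
  · simp only [rot, det_smul, Rm_det, Fintype.card_fin]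
    field_simp

theorem cay_rot {p : Quaternion F} (h : N p ≠ 0) : cay (rot p) = (4 * p.re / N p) • p := by
  ext
  · simp [cay, rot, Rm]; field_simp; simp only [N]; ring
  · simp [cay, rot, Rm]; field_simp; ring
  · simp [cay, rot, Rm]; field_simp; ring
  · simp [cay, rot, Rm]; field_simp; ring

variable [CharZero F]

theorem rot_cay {A : M3 F} (h : SO A) (h0 : (cay A).re ≠ 0) :
    N (cay A) ≠ 0 ∧ rot (cay A) = A := by
  obtain ⟨h1, h2⟩ := cay_spec h
  have : (4 * (cay A).re) ≠ 0 := by simpa using h0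
  refine ⟨by rwa [h1], ?_⟩
  rw [rot, h1, h2, smul_smul, inv_mul_cancel₀ this, one_smul]

theorem rot_surj {A : M3 F} (h : SO A) : ∃ q : Quaternion F, N q ≠ 0 ∧ rot q = A := by
  have key : ∀ d : Quaternion F, N d = 1 → (cay (rot d * A)).re ≠ 0 →
      ∃ q : Quaternion F, N q ≠ 0 ∧ rot q = A := by
    intro d hd h0
    have hd' : N d ≠ 0 := by rw [hd]; exact one_ne_zero
    obtain ⟨h1, h2⟩ := rot_cay ((rot_SO hd').mul h) h0
    refine ⟨star d * cay (rot d * A), by rw [N_mul, N_star]; exact mul_ne_zero hd' h1, ?_⟩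
    rw [rot_mul, h2, rot_star, ← Matrix.mul_assoc, (rot_SO hd').tm, Matrix.one_mul]
  by_contra hn
  have h0 := mt (key ⟨1, 0, 0, 0⟩ (by simp [N])) hn
  have h1 := mt (key ⟨0, 1, 0, 0⟩ (by simp [N])) hn
  have h2 := mt (key ⟨0, 0, 1, 0⟩ (by simp [N])) hn
  have h3 := mt (key ⟨0, 0, 0, 1⟩ (by simp [N])) hn
  simp [cay, rot, N, Rm, Matrix.mul_apply, Fin.sum_univ_three] at h0 h1 h2 h3
  have : (4 : F) = 0 := by linear_combination h0 + h1 + h2 + h3
  norm_num at this

/-- a matrix whose twisted square traces are constant on `SO(3)` is scalar -/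
theorem scalar_of_trace {u : M3 F} (hu : SO u)
    (h : ∀ g : M3 F, SO g → (u * (g * u * gᵀ)).trace = (u * u).trace) : u = 1 := by
  have k : ∀ g : M3 F, SO g → ∑ i, ∑ j, ∑ k, ∑ l, u i j * g j k * u k l * g i l =
      ∑ i, ∑ j, u i j * u j i := by
    intro g hg
    have := h g hg
    simp only [Matrix.trace, Matrix.diag, Matrix.mul_apply, Fin.sum_univ_three,
      transpose_apply] at this ⊢
    linear_combination this
  have d1 := k !![1, 0, 0; 0, -1, 0; 0, 0, -1] ⟨by
    ext i j; fin_cases i <;> fin_cases j <;> simp [Matrix.mul_apply, Fin.sum_univ_three],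
    by simp [det_fin_three]⟩
  have d2 := k !![-1, 0, 0; 0, 1, 0; 0, 0, -1] ⟨by
    ext i j; fin_cases i <;> fin_cases j <;> simp [Matrix.mul_apply, Fin.sum_univ_three],
    by simp [det_fin_three]⟩
  have d3 := k !![-1, 0, 0; 0, -1, 0; 0, 0, 1] ⟨by
    ext i j; fin_cases i <;> fin_cases j <;> simp [Matrix.mul_apply, Fin.sum_univ_three],
    by simp [det_fin_three]⟩
  have a1 := k !![1, 0, 0; 0, 0, -1; 0, 1, 0] ⟨by
    ext i j; fin_cases i <;> fin_cases j <;> simp [Matrix.mul_apply, Fin.sum_univ_three],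
    by simp [det_fin_three]⟩
  have a2 := k !![1, 0, 0; 0, 0, 1; 0, -1, 0] ⟨by
    ext i j; fin_cases i <;> fin_cases j <;> simp [Matrix.mul_apply, Fin.sum_univ_three],
    by simp [det_fin_three]⟩
  have a3 := k !![-1, 0, 0; 0, 0, 1; 0, 1, 0] ⟨by
    ext i j; fin_cases i <;> fin_cases j <;> simp [Matrix.mul_apply, Fin.sum_univ_three],
    by simp [det_fin_three]⟩
  have a4 := k !![-1, 0, 0; 0, 0, -1; 0, -1, 0] ⟨by
    ext i j; fin_cases i <;> fin_cases j <;> simp [Matrix.mul_apply, Fin.sum_univ_three],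
    by simp [det_fin_three]⟩
  have b1 := k !![0, 0, 1; 0, 1, 0; -1, 0, 0] ⟨by
    ext i j; fin_cases i <;> fin_cases j <;> simp [Matrix.mul_apply, Fin.sum_univ_three],
    by simp [det_fin_three]⟩
  have b2 := k !![0, 0, -1; 0, 1, 0; 1, 0, 0] ⟨by
    ext i j; fin_cases i <;> fin_cases j <;> simp [Matrix.mul_apply, Fin.sum_univ_three],
    by simp [det_fin_three]⟩
  have b3 := k !![0, 0, 1; 0, -1, 0; 1, 0, 0] ⟨by
    ext i j; fin_cases i <;> fin_cases j <;> simp [Matrix.mul_apply, Fin.sum_univ_three],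
    by simp [det_fin_three]⟩
  have b4 := k !![0, 0, -1; 0, -1, 0; -1, 0, 0] ⟨by
    ext i j; fin_cases i <;> fin_cases j <;> simp [Matrix.mul_apply, Fin.sum_univ_three],
    by simp [det_fin_three]⟩
  have c1 := k !![0, -1, 0; 1, 0, 0; 0, 0, 1] ⟨by
    ext i j; fin_cases i <;> fin_cases j <;> simp [Matrix.mul_apply, Fin.sum_univ_three],
    by simp [det_fin_three]⟩
  have c2 := k !![0, 1, 0; -1, 0, 0; 0, 0, 1] ⟨by
    ext i j; fin_cases i <;> fin_cases j <;> simp [Matrix.mul_apply, Fin.sum_univ_three],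
    by simp [det_fin_three]⟩
  have c3 := k !![0, 1, 0; 1, 0, 0; 0, 0, -1] ⟨by
    ext i j; fin_cases i <;> fin_cases j <;> simp [Matrix.mul_apply, Fin.sum_univ_three],
    by simp [det_fin_three]⟩
  have c4 := k !![0, -1, 0; -1, 0, 0; 0, 0, -1] ⟨by
    ext i j; fin_cases i <;> fin_cases j <;> simp [Matrix.mul_apply, Fin.sum_univ_three],
    by simp [det_fin_three]⟩
  simp [Fin.sum_univ_three] at d1 d2 d3 a1 a2 a3 a4 b1 b2 b3 b4 c1 c2 c3 c4
  have p01 : u 0 1 + u 1 0 = 0 := pow_eq_zero_iff two_ne_zero |>.mp (by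
    linear_combination (-1/4) * d1 + (-1/4) * d2 + (1/4) * d3 + (-1/2) * c1 + (1/4) * c3 + (1/4) * c4)
  have m01 : u 0 1 - u 1 0 = 0 := pow_eq_zero_iff two_ne_zero |>.mp (by
    linear_combination (1/4) * d1 + (1/4) * d2 + (-1/4) * d3 + (-1/2) * c1 + (1/4) * c3 + (1/4) * c4)
  have e01 : u 0 0 - u 1 1 = 0 := pow_eq_zero_iff two_ne_zero |>.mp (by
    linear_combination (1/4) * d1 + (1/4) * d2 + (1/4) * d3 + (-1/2) * c1 + (-1/4) * c3 + (-1/4) * c4)
  have z01 : u 0 1 = 0 := by linear_combination (1/2) * p01 + (1/2) * m01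
  have z10 : u 1 0 = 0 := by linear_combination (1/2) * p01 - (1/2) * m01
  have p02 : u 0 2 + u 2 0 = 0 := pow_eq_zero_iff two_ne_zero |>.mp (by
    linear_combination (-1/4) * d1 + (1/4) * d2 + (-1/4) * d3 + (-1/2) * b1 + (1/4) * b3 + (1/4) * b4)
  have m02 : u 0 2 - u 2 0 = 0 := pow_eq_zero_iff two_ne_zero |>.mp (by
    linear_combination (1/4) * d1 + (-1/4) * d2 + (1/4) * d3 + (-1/2) * b1 + (1/4) * b3 + (1/4) * b4)
  have e02 : u 0 0 - u 2 2 = 0 := pow_eq_zero_iff two_ne_zero |>.mp (by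
    linear_combination (1/4) * d1 + (1/4) * d2 + (1/4) * d3 + (-1/2) * b1 + (-1/4) * b3 + (-1/4) * b4)
  have z02 : u 0 2 = 0 := by linear_combination (1/2) * p02 + (1/2) * m02
  have z20 : u 2 0 = 0 := by linear_combination (1/2) * p02 - (1/2) * m02
  have p12 : u 1 2 + u 2 1 = 0 := pow_eq_zero_iff two_ne_zero |>.mp (by
    linear_combination (1/4) * d1 + (-1/4) * d2 + (-1/4) * d3 + (-1/2) * a1 + (1/4) * a3 + (1/4) * a4)
  have m12 : u 1 2 - u 2 1 = 0 := pow_eq_zero_iff two_ne_zero |>.mp (by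
    linear_combination (-1/4) * d1 + (1/4) * d2 + (1/4) * d3 + (-1/2) * a1 + (1/4) * a3 + (1/4) * a4)
  have e12 : u 1 1 - u 2 2 = 0 := pow_eq_zero_iff two_ne_zero |>.mp (by
    linear_combination (1/4) * d1 + (1/4) * d2 + (1/4) * d3 + (-1/2) * a1 + (-1/4) * a3 + (-1/4) * a4)
  have z12 : u 1 2 = 0 := by linear_combination (1/2) * p12 + (1/2) * m12
  have z21 : u 2 1 = 0 := by linear_combination (1/2) * p12 - (1/2) * m12
  have h1 : u 1 1 = u 0 0 := by linear_combination -e01
  have h2 : u 2 2 = u 0 0 := by linear_combination -e02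
  have s1 := congrFun (congrFun hu.1 0) 0
  have s2 := hu.2
  simp [Matrix.mul_apply, Fin.sum_univ_three, det_fin_three, z01, z10, z02, z20, z12, z21, h1,
    h2] at s1 s2
  have h0 : u 0 0 = 1 := by linear_combination s2 - u 0 0 * s1
  ext i j
  fin_cases i <;> fin_cases j <;> simp [z01, z10, z02, z20, z12, z21, h1, h2, h0]

end Field

end Pool.Agent.H.MP_f64102_gt
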