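import Pool.Agent.H.MP_f64102_gt.A

namespace Pool.Agent.H.MP_f64102_gt
open Matrix

section Ring
variable {R : Type} [CommRing R]

def wd (a b x y : Quaternion R) : Quaternion R :=
  a * b * star a * star b * (x * y * star x * star y)
def Kq (ε : R) (a b : Quaternion R) : Quaternion R := ε • (a * b * star a * star b)
def Dq (ε : R) (a b x : Quaternion R) : Quaternion R := Kq ε a b * x + (N a * N b) • x
def G1 (a b : Quaternion R) : R :=
  (a.re ^ 2 - (a * a).re) * (b.re ^ 2 - (b * b).re) - (a.re * b.re - (a * b).re) ^ 2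
def Ni (a : Quaternion R) : R := N a - a.re ^ 2
def G4 (ε : R) (a b x y : Quaternion R) : R := (wd a b x y).re + ε * (N a * N b * N x * N y)
def ff (ε : R) (a b x y : Quaternion R) : R :=
  a.re * b.re * x.re * y.re * G1 a b * (a * b).re * Ni (Dq ε a b x) * G4 ε a b x y

variable {S : Type} [CommRing S] (φ : R →+* S)

theorem map_G4 (ε : R) (a b x y : Quaternion R) :
    φ (G4 ε a b x y) = G4 (φ ε) (qm φ a) (qm φ b) (qm φ x) (qm φ y) := by
  simp only [G4, wd, map_add, map_mul, qm_re, qm_N, qm_mul, qm_star]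

theorem map_ff (ε : R) (a b x y : Quaternion R) :
    φ (ff ε a b x y) = ff (φ ε) (qm φ a) (qm φ b) (qm φ x) (qm φ y) := by
  simp only [ff, map_G4, G1, Ni, Dq, Kq, map_add, map_sub, map_pow, map_mul, qm_re, qm_N, qm_mul,
    qm_star, qm_add, qm_smul]

theorem star_smul' (s : R) (a : Quaternion R) : star (s • a) = s • star a := by
  ext <;> simp

theorem wd_smul (s t u v : R) (a b x y : Quaternion R) :
    wd (s • a) (t • b) (u • x) (v • y) = (s * t * u * v) ^ 2 • wd a b x y := by
  simp only [wd, star_smul', smul_mul_assoc, mul_smul_comm, smul_smul]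
  congr 1; ring

theorem Dq_smul (ε s t u : R) (a b x : Quaternion R) :
    Dq ε (s • a) (t • b) (u • x) = (s ^ 2 * t ^ 2 * u) • Dq ε a b x := by
  simp only [Dq, Kq, N_smul, star_smul', smul_mul_assoc, mul_smul_comm, smul_smul,
    smul_add]
  congr 1 <;> congr 1 <;> ring

theorem Ni_smul (s : R) (a : Quaternion R) : Ni (s • a) = s ^ 2 * Ni a := by
  simp [Ni, N_smul]; ring

theorem G1_smul (s t : R) (a b : Quaternion R) : G1 (s • a) (t • b) = (s * t) ^ 2 * G1 a b := by
  simp [G1]; ring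

theorem G4_smul (ε s t u v : R) (a b x y : Quaternion R) :
    G4 ε (s • a) (t • b) (u • x) (v • y) = (s * t * u * v) ^ 2 * G4 ε a b x y := by
  simp only [G4, wd_smul, N_smul]
  simp; ring

theorem ff_smul (ε s t u v : R) (a b x y : Quaternion R) :
    ff ε (s • a) (t • b) (u • x) (v • y) = (s ^ 10 * t ^ 10 * u ^ 5 * v ^ 3) * ff ε a b x y := by
  simp only [ff, G4_smul, Dq_smul, Ni_smul, G1_smul, smul_mul_assoc, mul_smul_comm, smul_smul]
  simp only [Quaternion.re_smul, smul_eq_mul]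
  ring

theorem N_Kq (ε : R) (hε : ε * ε = 1) (a b : Quaternion R) : N (Kq ε a b) = (N a * N b) ^ 2 := by
  simp only [Kq, N_smul, N_mul, N_star]
  linear_combination (N a * N b) ^ 2 * hε

theorem re_conj (y x : Quaternion R) : (y * x * star y).re = N y * x.re := by
  simp [N]; ring

end Ring

abbrev Q := Quaternion ℝ

theorem N_ne {a : Q} (h : a.re ≠ 0) : N a ≠ 0 := by
  have : 0 < a.re ^ 2 := by positivity
  simp only [N]; positivity

theorem N_ne1 {a : Q} (h : a.re = 1) : N a ≠ 0 := N_ne (by rw [h]; exact one_ne_zero)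

theorem rel_iff {ε : ℝ} (hε : ε * ε = 1) {a b x y : Q} (hx : N x ≠ 0) (hy : N y ≠ 0) :
    wd a b x y = (ε * (N a * N b * N x * N y)) • (1 : Q) ↔
      Kq ε a b * x * y = y * ((N a * N b) • x) := by
  have e1 : star x * star y * (y * x) = (N x * N y) • (1 : Q) := by
    rw [← star_mul, star_mul'', N_mul, mul_comm]
  have e2 : y * x * (star x * star y) = (N x * N y) • (1 : Q) := by
    rw [← star_mul, mul_star', N_mul, mul_comm]
  constructor
  · intro h
    have h2 : (N x * N y) • (Kq ε a b * x * y) = (N x * N y) • (y * ((N a * N b) • x)) := by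
      calc (N x * N y) • (Kq ε a b * x * y)
          = Kq ε a b * x * y * (star x * star y * (y * x)) := by
            rw [e1, mul_smul_comm, mul_one]
        _ = ε • (wd a b x y * (y * x)) := by
            simp only [Kq, wd, smul_mul_assoc, mul_assoc]
        _ = _ := by
            rw [h]
            simp only [smul_mul_assoc, mul_smul_comm, smul_smul, one_mul]
            congr 1
            linear_combination (N a * N b * N x * N y) * hε
    exact smul_right_injective _ (mul_ne_zero hx hy) h2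
  · intro h
    calc wd a b x y = (ε * ε) • wd a b x y := by rw [hε, one_smul]
      _ = ε • (Kq ε a b * x * y * (star x * star y)) := by
            simp only [Kq, wd, smul_mul_assoc, mul_assoc, smul_smul]
      _ = _ := by
            rw [h, mul_smul_comm, smul_mul_assoc, e2, smul_smul, smul_smul]
            congr 1; ring

theorem re_of_rel {m n y : Q} (hy : N y ≠ 0) (h : m * y = y * n) : m.re = n.re := by
  have : m * (y * star y) = y * n * star y := by rw [← mul_assoc, h]
  have h2 := congrArg (fun q : Q => q.re) this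
  simp only [re_conj, mul_star', mul_smul_comm, mul_one] at h2
  simp only [Quaternion.re_smul, smul_eq_mul] at h2
  exact mul_left_cancel₀ hy h2

/-- the solutions of `m y = y n` with real part one -/
noncomputable def yy (m n : Q) (t : ℝ) : Q :=
  1 + t • ((m + n) - (m + n).re • (1 : Q)) -
    (Ni (m + n))⁻¹ • (((m + n) - (m + n).re • (1 : Q)) * (n - m))

noncomputable def tt (d y : Q) : ℝ := (d.re - (d * y).re) / Ni d

theorem Ni_eq (d : Q) : Ni d = d.imI ^ 2 + d.imJ ^ 2 + d.imK ^ 2 := by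
  simp only [Ni, N]; ring

theorem solve1 {m n y : Q} (hy : y.re = 1) (h : m * y = y * n) (hd : Ni (m + n) ≠ 0) :
    yy m n (tt (m + n) y) = y := by
  have hr := re_of_rel (N_ne1 hy) h
  have h1 := congrArg (fun q : Q => q.imI) h
  have h2 := congrArg (fun q : Q => q.imJ) h
  have h3 := congrArg (fun q : Q => q.imK) h
  have hw := inv_mul_cancel₀ hd
  simp only [yy, tt, div_eq_mul_inv]
  generalize (Ni (m + n))⁻¹ = w at hw ⊢
  simp [hy, hr, Ni_eq] at h1 h2 h3 hw
  ext
  · simp [hy, hr]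
    right
    linear_combination (m.imI + n.imI) * h1 + (m.imJ + n.imJ) * h2 + (m.imK + n.imK) * h3
  · simp [hy, hr]
    linear_combination y.imI * hw + w * (m.imJ + n.imJ) * h3 - w * (m.imK + n.imK) * h2
  · simp [hy, hr]
    linear_combination y.imJ * hw + w * (m.imK + n.imK) * h1 - w * (m.imI + n.imI) * h3
  · simp [hy, hr]
    linear_combination y.imK * hw + w * (m.imI + n.imI) * h2 - w * (m.imJ + n.imJ) * h1

theorem solve2 {m n : Q} (t : ℝ) (hr : m.re = n.re) (hN : N m = N n) (hd : Ni (m + n) ≠ 0) :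
    (yy m n t).re = 1 ∧ m * yy m n t = yy m n t * n ∧ tt (m + n) (yy m n t) = t := by
  have hw := inv_mul_cancel₀ hd
  simp only [yy, tt, div_eq_mul_inv]
  generalize (Ni (m + n))⁻¹ = w at hw ⊢
  simp only [N, hr] at hN
  simp [Ni_eq] at hw
  refine ⟨?_, ?_, ?_⟩
  · simp [hr]; right; linear_combination hN
  · ext
    · simp [hr]; linear_combination (-t) * hN
    · simp [hr]; linear_combination (n.imI - m.imI) * hw + 2 * w * n.imI * hN
    · simp [hr]; linear_combination (n.imJ - m.imJ) * hw + 2 * w * n.imJ * hN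
    · simp [hr]; linear_combination (n.imK - m.imK) * hw + 2 * w * n.imK * hN
  · simp [hr]; linear_combination t * hw + 2 * w * w * n.re * hN

/-- conjugation -/
noncomputable def cj (r q : Q) : Q := (N r)⁻¹ • (r * q * star r)

section cj
variable {r : Q} (hr : N r ≠ 0)
include hr

theorem cj_mul (p q : Q) : cj r (p * q) = cj r p * cj r q := by
  have : r * p * star r * (r * q * star r) = N r • (r * (p * q) * star r) := by
    calc _ = r * p * (star r * r) * q * star r := by simp only [mul_assoc]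
      _ = _ := by
        rw [star_mul'']
        simp only [mul_smul_comm, smul_mul_assoc, mul_one, mul_assoc]
  simp only [cj, smul_mul_assoc, mul_smul_comm, this, smul_smul]
  congr 1; field_simp

theorem cj_re (p : Q) : (cj r p).re = p.re := by
  simp only [cj, Quaternion.re_smul, re_conj, smul_eq_mul]; field_simp

theorem cj_N (p : Q) : N (cj r p) = N p := by
  simp only [cj, N_smul, N_mul, N_star]; field_simp

theorem cj_one : cj r 1 = 1 := by
  simp only [cj, mul_one, mul_star', smul_smul, inv_mul_cancel₀ hr, one_smul]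

theorem rot_cj (p : Q) : rot (cj r p) = rot r * rot p * (rot r)ᵀ := by
  rw [cj, rot_smul (inv_ne_zero hr), rot_mul, rot_mul, rot_star]

theorem cj_eq {a m : Q} (h : r * a = m * r) : cj r a = m := by
  rw [cj, h, mul_assoc, mul_star', mul_smul_comm, mul_one, smul_smul, inv_mul_cancel₀ hr, one_smul]

theorem cj_inv (p : Q) : cj (star r) (cj r p) = p := by
  apply cj_eq (by rwa [N_star])
  simp only [cj, mul_smul_comm, ← mul_assoc, star_mul'', smul_mul_assoc, one_mul, smul_smul,
    inv_mul_cancel₀ hr, one_smul]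

end cj

theorem cj_add (r p q : Q) : cj r (p + q) = cj r p + cj r q := by
  simp only [cj, mul_add, add_mul, smul_add]

theorem cj_smul (r : Q) (c : ℝ) (p : Q) : cj r (c • p) = c • cj r p := by
  simp only [cj, mul_smul_comm, smul_mul_assoc, smul_comm c]

theorem cj_star (r p : Q) : cj r (star p) = star (cj r p) := by
  simp only [cj, star_smul', star_mul, star_star, mul_assoc]

theorem cj_cj (r s p : Q) : cj r (cj s p) = cj (r * s) p := by
  simp only [cj, N_mul, mul_smul_comm, smul_mul_assoc, smul_smul, star_mul, mul_assoc, mul_inv]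

section inv
variable {r : Q} (hr : N r ≠ 0)
include hr

theorem cj_mre (a b : Q) : (cj r a * cj r b).re = (a * b).re := by rw [← cj_mul hr, cj_re hr]

theorem cj_wd (a b x y : Q) : wd (cj r a) (cj r b) (cj r x) (cj r y) = cj r (wd a b x y) := by
  simp only [wd, cj_mul hr, cj_star]

theorem cj_Dq (ε : ℝ) (a b x : Q) : Dq ε (cj r a) (cj r b) (cj r x) = cj r (Dq ε a b x) := by
  simp only [Dq, Kq, cj_mul hr, cj_star, cj_add, cj_smul, cj_N hr]

theorem cj_Ni (a : Q) : Ni (cj r a) = Ni a := by simp only [Ni, cj_N hr, cj_re hr]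

theorem cj_G1 (a b : Q) : G1 (cj r a) (cj r b) = G1 a b := by
  simp only [G1, cj_re hr, cj_mre hr]

theorem cj_ff (ε : ℝ) (a b x y : Q) :
    ff ε (cj r a) (cj r b) (cj r x) (cj r y) = ff ε a b x y := by
  simp only [ff, G4, cj_G1 hr, cj_re hr, cj_mre hr, cj_wd hr, cj_Dq hr, cj_Ni hr, cj_N hr]

end inv

def mq {R : Type} [CommRing R] (a b c d : R) : Quaternion R := ⟨a, b, c, d⟩
@[simp] theorem mq_re {R : Type} [CommRing R] (a b c d : R) : (mq a b c d).re = a := rfl
@[simp] theorem mq_imI {R : Type} [CommRing R] (a b c d : R) : (mq a b c d).imI = b := rfl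
@[simp] theorem mq_imJ {R : Type} [CommRing R] (a b c d : R) : (mq a b c d).imJ = c := rfl
@[simp] theorem mq_imK {R : Type} [CommRing R] (a b c d : R) : (mq a b c d).imK = d := rfl

theorem step1 {a : Q} (ha : a.re = 1) (h : Ni a ≠ 0) :
    ∃ r α, N r ≠ 0 ∧ 0 < α ∧ cj r a = mq 1 α 0 0 := by
  rw [Ni_eq] at h
  have hp : 0 < a.imI ^ 2 + a.imJ ^ 2 + a.imK ^ 2 := lt_of_le_of_ne (by positivity) h.symm
  obtain ⟨α, h0, h2⟩ : ∃ α : ℝ, 0 < α ∧ α ^ 2 = a.imI ^ 2 + a.imJ ^ 2 + a.imK ^ 2 :=
    ⟨_, Real.sqrt_pos.mpr hp, Real.sq_sqrt hp.le⟩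
  by_cases hN : N (mq 0 (a.imI + α) a.imJ a.imK) = 0
  · simp [N] at hN
    have e1 : a.imI + α = 0 := by nlinarith [sq_nonneg (a.imI + α), sq_nonneg a.imJ, sq_nonneg a.imK]
    have e2 : a.imJ = 0 := by nlinarith [sq_nonneg (a.imI + α), sq_nonneg a.imJ, sq_nonneg a.imK]
    have e3 : a.imK = 0 := by nlinarith [sq_nonneg (a.imI + α), sq_nonneg a.imJ, sq_nonneg a.imK]
    have hN' : N (mq (0:ℝ) 0 1 0) ≠ 0 := by simp [N]
    refine ⟨_, α, hN', h0, cj_eq hN' ?_⟩
    ext <;> simp [ha, e2, e3]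
    linarith
  · refine ⟨_, α, hN, h0, cj_eq hN ?_⟩
    ext <;> simp [ha]
    · linear_combination h2
    · ring
    · ring
    · ring

theorem step2 {b : Q} (hb : b.re = 1) (h : b.imJ ^ 2 + b.imK ^ 2 ≠ 0) :
    ∃ r γ, N r ≠ 0 ∧ 0 < γ ∧ cj r b = mq 1 b.imI γ 0 ∧
      ∀ α, cj r (mq 1 α 0 0) = mq 1 α 0 0 := by
  have hp : 0 < b.imJ ^ 2 + b.imK ^ 2 := lt_of_le_of_ne (by positivity) h.symm
  obtain ⟨γ, h0, h2⟩ : ∃ γ : ℝ, 0 < γ ∧ γ ^ 2 = b.imJ ^ 2 + b.imK ^ 2 :=
    ⟨_, Real.sqrt_pos.mpr hp, Real.sq_sqrt hp.le⟩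
  by_cases hN : N (mq (γ + b.imJ) (-b.imK) 0 0) = 0
  · simp [N] at hN
    have e1 : γ + b.imJ = 0 := by nlinarith [sq_nonneg (γ + b.imJ), sq_nonneg b.imK]
    have e3 : b.imK = 0 := by nlinarith [sq_nonneg (γ + b.imJ), sq_nonneg b.imK]
    have hN' : N (mq (0:ℝ) 1 0 0) ≠ 0 := by simp [N]
    refine ⟨_, γ, hN', h0, cj_eq hN' ?_, fun α => cj_eq hN' ?_⟩
    · ext <;> simp [hb, e3]
      linarith
    · ext <;> simp
  · refine ⟨_, γ, hN, h0, cj_eq hN ?_, fun α => cj_eq hN ?_⟩
    · ext <;> simp [hb]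
      · ring
      · ring
      · linear_combination -h2
      · ring
    · ext <;> simp <;> ring

theorem frame {a b : Q} (ha : a.re = 1) (hb : b.re = 1) (h : G1 a b ≠ 0) :
    ∃ r α β γ, N r ≠ 0 ∧ 0 < α ∧ 0 < γ ∧ cj r a = mq 1 α 0 0 ∧ cj r b = mq 1 β γ 0 := by
  have h1 : Ni a ≠ 0 := by
    intro h0
    rw [Ni_eq] at h0
    have e1 : a.imI = 0 := by nlinarith [sq_nonneg a.imI, sq_nonneg a.imJ, sq_nonneg a.imK]
    have e2 : a.imJ = 0 := by nlinarith [sq_nonneg a.imI, sq_nonneg a.imJ, sq_nonneg a.imK]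
    have e3 : a.imK = 0 := by nlinarith [sq_nonneg a.imI, sq_nonneg a.imJ, sq_nonneg a.imK]
    apply h
    simp [G1, ha, hb, e1, e2, e3]
  obtain ⟨r, α, hr, hα, e⟩ := step1 ha h1
  have hb' : (cj r b).re = 1 := by rw [cj_re hr, hb]
  have h2 : (cj r b).imJ ^ 2 + (cj r b).imK ^ 2 ≠ 0 := by
    intro h0
    apply h
    rw [← cj_G1 hr, e]
    simp [G1, hb']
    linear_combination α ^ 2 * h0
  obtain ⟨s, γ, hs, hγ, e1, e2⟩ := step2 hb' h2
  exact ⟨s * r, α, _, γ, by rw [N_mul]; exact mul_ne_zero hs hr, hα, hγ,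
    by rw [← cj_cj, e, e2], by rw [← cj_cj, e1]⟩

end Pool.Agent.H.MP_f64102_gt
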