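import Pool.Agent.H.MP_f64102_gt.B

namespace Pool.Agent.H.MP_f64102_gt
open Matrix

def Y (ε : ℝ) (a b x y : Q) : Prop :=
  a.re = 1 ∧ b.re = 1 ∧ x.re = 1 ∧ y.re = 1 ∧
    wd a b x y = (ε * (N a * N b * N x * N y)) • (1 : Q) ∧
    G1 a b ≠ 0 ∧ (a * b).re ≠ 0 ∧ Ni (Dq ε a b x) ≠ 0

noncomputable def c0 (a : Q) : ℝ := √(1 - (a * a).re)
noncomputable def c1 (a b : Q) : ℝ := (1 - (a * b).re) / c0 a
noncomputable def c2 (a b : Q) : ℝ := √(1 - (b * b).re - c1 a b ^ 2)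
noncomputable def c4 (a b x : Q) : ℝ := (1 - (b * x).re - c1 a b * c1 a x) / c2 a b
noncomputable def co (ε : ℝ) (a b x y : Q) : Fin 6 → ℝ :=
  ![c0 a, c1 a b, c2 a b, c1 a x, c4 a b x, tt (Dq ε a b x) y]

def sa (u : Fin 6 → ℝ) : Q := mq 1 (u 0) 0 0
def sb (u : Fin 6 → ℝ) : Q := mq 1 (u 1) (u 2) 0
noncomputable def sx (ε : ℝ) (u : Fin 6 → ℝ) : Q :=
  mq 1 (u 3) (u 4) (((Kq ε (sa u) (sb u)).re - N (sa u) * N (sb u) -
    (Kq ε (sa u) (sb u)).imI * u 3 - (Kq ε (sa u) (sb u)).imJ * u 4) / (Kq ε (sa u) (sb u)).imK)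
noncomputable def sy (ε : ℝ) (u : Fin 6 → ℝ) : Q :=
  yy (Kq ε (sa u) (sb u) * sx ε u) ((N (sa u) * N (sb u)) • sx ε u) (u 5)
def U (ε : ℝ) : Set (Fin 6 → ℝ) :=
  {u | (0 < u 0 ∧ 0 < u 2 ∧ 1 - u 0 * u 1 ≠ 0) ∧ Ni (Dq ε (sa u) (sb u) (sx ε u)) ≠ 0}

theorem Y.cjj {ε : ℝ} {a b x y r : Q} (h : Y ε a b x y) (hr : N r ≠ 0) :
    Y ε (cj r a) (cj r b) (cj r x) (cj r y) := by
  obtain ⟨h1, h2, h3, h4, h5, h6, h7, h8⟩ := h
  simp only [Y, cj_re hr, cj_wd hr, cj_N hr, cj_G1 hr, cj_mre hr, cj_Dq hr, cj_Ni hr]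
  exact ⟨h1, h2, h3, h4, by rw [h5, cj_smul, cj_one hr], h6, h7, h8⟩

theorem co_cj (ε : ℝ) {r : Q} (hr : N r ≠ 0) (a b x y : Q) :
    co ε (cj r a) (cj r b) (cj r x) (cj r y) = co ε a b x y := by
  simp only [co, c4, c2, c1, c0, tt, cj_mre hr, cj_Dq hr, cj_Ni hr, cj_re hr]

theorem c0_mq {α : ℝ} (h : 0 < α) : c0 (mq 1 α 0 0) = α := by
  have : 1 - (mq 1 α 0 0 * mq 1 α 0 0 : Q).re = α ^ 2 := by simp; ring
  rw [c0, this, Real.sqrt_sq h.le]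

theorem c1_mq {α : ℝ} (h : 0 < α) {x : Q} (hx : x.re = 1) : c1 (mq 1 α 0 0) x = x.imI := by
  rw [c1, c0_mq h]; simp [hx]; field_simp

theorem c2_mq {α β γ : ℝ} (h : 0 < α) (h' : 0 < γ) : c2 (mq 1 α 0 0) (mq 1 β γ 0) = γ := by
  have : 1 - (mq 1 β γ 0 * mq 1 β γ 0 : Q).re - β ^ 2 = γ ^ 2 := by simp; ring
  rw [c2, c1_mq h (by simp), mq_imI, this, Real.sqrt_sq h'.le]

theorem c4_mq {α β γ : ℝ} (h : 0 < α) (h' : 0 < γ) {x : Q} (hx : x.re = 1) :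
    c4 (mq 1 α 0 0) (mq 1 β γ 0) x = x.imJ := by
  rw [c4, c2_mq h h', c1_mq h (by simp), c1_mq h hx]; simp [hx]; field_simp; ring

theorem K_ne {ε : ℝ} (hε : ε * ε = 1) {u : Fin 6 → ℝ}
    (h : 0 < u 0 ∧ 0 < u 2 ∧ 1 - u 0 * u 1 ≠ 0) : (Kq ε (sa u) (sb u)).imK ≠ 0 := by
  have : (Kq ε (sa u) (sb u)).imK = ε * (2 * (1 - u 0 * u 1) * u 0 * u 2) := by
    simp [Kq, sa, sb]; left; ring
  rw [this]
  have h1 : ε ≠ 0 := by rintro rfl; simp at hε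
  have := h.1.ne'; have := h.2.1.ne'; have := h.2.2
  positivity

theorem sec_spec {ε : ℝ} (hε : ε * ε = 1) {u : Fin 6 → ℝ} (hu : u ∈ U ε) :
    Y ε (sa u) (sb u) (sx ε u) (sy ε u) ∧ co ε (sa u) (sb u) (sx ε u) (sy ε u) = u := by
  obtain ⟨h, hd⟩ := hu
  have hK := K_ne hε h
  have hx : (sx ε u).re = 1 := rfl
  have hr : (Kq ε (sa u) (sb u) * sx ε u).re = ((N (sa u) * N (sb u)) • sx ε u).re := by
    simp [sx]; field_simp; ring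
  have hN : N (Kq ε (sa u) (sb u) * sx ε u) = N ((N (sa u) * N (sb u)) • sx ε u) := by
    rw [N_mul, N_Kq ε hε, N_smul]
  obtain ⟨y1, y2, y3⟩ := solve2 (u 5) hr hN hd
  refine ⟨⟨rfl, rfl, rfl, y1, (rel_iff hε (N_ne1 hx) (N_ne1 y1)).mpr y2, ?_, ?_, hd⟩, ?_⟩
  · have : G1 (sa u) (sb u) = (u 0 * u 2) ^ 2 := by simp [G1, sa, sb]; ring
    rw [this]
    have := h.1; have := h.2.1
    positivity
  · simpa [sa, sb] using h.2.2
  · ext i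
    fin_cases i
    · exact c0_mq h.1
    · exact c1_mq h.1 rfl
    · exact c2_mq h.1 h.2.1
    · exact c1_mq h.1 rfl
    · exact c4_mq h.1 h.2.1 rfl
    · exact y3

theorem slice_spec {ε : ℝ} (hε : ε * ε = 1) {α β γ : ℝ} (hα : 0 < α) (hγ : 0 < γ) {x y : Q}
    (h : Y ε (mq 1 α 0 0) (mq 1 β γ 0) x y) {u : Fin 6 → ℝ}
    (hu : u = co ε (mq 1 α 0 0) (mq 1 β γ 0) x y) :
    u ∈ U ε ∧ sa u = mq 1 α 0 0 ∧ sb u = mq 1 β γ 0 ∧ sx ε u = x ∧ sy ε u = y := by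
  obtain ⟨-, -, h3, h4, h5, -, h7, h8⟩ := h
  have u0 : u 0 = α := by rw [hu]; exact c0_mq hα
  have u1 : u 1 = β := by rw [hu]; exact c1_mq hα rfl
  have u2 : u 2 = γ := by rw [hu]; exact c2_mq hα hγ
  have u3 : u 3 = x.imI := by rw [hu]; exact c1_mq hα h3
  have u4 : u 4 = x.imJ := by rw [hu]; exact c4_mq hα hγ h3
  have u5 : u 5 = tt (Dq ε (mq 1 α 0 0) (mq 1 β γ 0) x) y := by rw [hu]; rfl
  have ea : sa u = mq 1 α 0 0 := by rw [sa, u0]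
  have eb : sb u = mq 1 β γ 0 := by rw [sb, u1, u2]
  have hp : 0 < u 0 ∧ 0 < u 2 ∧ 1 - u 0 * u 1 ≠ 0 := by
    rw [u0, u1, u2]; exact ⟨hα, hγ, by simpa using h7⟩
  have hK := K_ne hε hp
  have rel := (rel_iff hε (N_ne1 h3) (N_ne1 h4)).mp h5
  have hr := re_of_rel (N_ne1 h4) rel
  have ex : sx ε u = x := by
    rw [← ea, ← eb] at hr
    ext
    · exact h3.symm
    · exact u3
    · exact u4
    · simp [h3] at hr
      simp only [sx, mq_imK, u3, u4]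
      field_simp
      linear_combination hr
  refine ⟨⟨hp, by rwa [ea, eb, ex]⟩, ea, eb, ex, ?_⟩
  rw [sy, ea, eb, ex, u5]
  exact solve1 h4 rel h8

theorem Y.norm {ε : ℝ} (hε : ε * ε = 1) {a b x y : Q} (h : Y ε a b x y) {u : Fin 6 → ℝ}
    (hu : u = co ε a b x y) : u ∈ U ε ∧ ∃ r, N r ≠ 0 ∧ a = cj r (sa u) ∧ b = cj r (sb u) ∧
      x = cj r (sx ε u) ∧ y = cj r (sy ε u) := by
  obtain ⟨r, α, β, γ, hr, hα, hγ, ea, eb⟩ := frame h.1 h.2.1 h.2.2.2.2.2.1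
  have h' := h.cjj hr
  rw [← co_cj ε hr] at hu
  rw [ea, eb] at h' hu
  obtain ⟨k0, k1, k2, k3, k4⟩ := slice_spec hε hα hγ h' hu
  refine ⟨k0, star r, by rwa [N_star], ?_, ?_, ?_, ?_⟩
  · rw [k1, ← ea, cj_inv hr]
  · rw [k2, ← eb, cj_inv hr]
  · rw [k3, cj_inv hr]
  · rw [k4, cj_inv hr]

theorem U_nonempty {ε : ℝ} (hε : ε = 1 ∨ ε = -1) : (U ε).Nonempty := by
  refine ⟨![1, 0, 1, 0, 0, 0], by simp, ?_⟩
  rcases hε with rfl | rfl <;> simp [Ni_eq, Dq, Kq, sx, sa, sb, N] <;> norm_num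

abbrev Tup (R : Type) := Fin 2 × Fin 2 → M3 R

def fA {R : Type} [CommRing R] (ε : R) (A : Tup R) : R :=
  ff ε (cay (A (0, 0))) (cay (A (0, 1))) (cay (A (1, 0))) (cay (A (1, 1)))

def Om (ε : ℝ) : Set (Tup ℝ) :=
  {A | (∀ i, SO (A i)) ∧ A (0, 0) * A (0, 1) * (A (0, 0))ᵀ * (A (0, 1))ᵀ *
    (A (1, 0) * A (1, 1) * (A (1, 0))ᵀ * (A (1, 1))ᵀ) = 1 ∧ fA ε A ≠ 0}

noncomputable def nl (A : M3 ℝ) : Q := ((cay A).re)⁻¹ • cay A

noncomputable def T (a b x y : Q) : Tup ℝ := fun i => rot (![![a, b], ![x, y]] i.1 i.2)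

theorem cay_rot1 {p : Q} (h : p.re = 1) : cay (rot p) = (4 / N p) • p := by
  rw [cay_rot (N_ne1 h), h, mul_one]

theorem nl_rot {p : Q} (h : p.re = 1) : nl (rot p) = p := by
  have := N_ne1 h
  rw [nl, cay_rot1 h, smul_smul, Quaternion.re_smul, h]
  convert one_smul ℝ p
  simp only [smul_eq_mul]; field_simp

theorem rot_eq_one {c : Q} (hc : N c ≠ 0) (h : rot c = 1) : c = c.re • (1 : Q) := by
  have h0 := congrFun (congrFun h 0) 0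
  have h1 := congrFun (congrFun h 1) 1
  simp [rot, Rm] at h0 h1
  field_simp at h0 h1
  simp only [N] at h0 h1
  have e1 : c.imI = 0 := by nlinarith [sq_nonneg c.imI, sq_nonneg c.imJ, sq_nonneg c.imK]
  have e2 : c.imJ = 0 := by nlinarith [sq_nonneg c.imI, sq_nonneg c.imJ, sq_nonneg c.imK]
  have e3 : c.imK = 0 := by nlinarith [sq_nonneg c.imI, sq_nonneg c.imJ, sq_nonneg c.imK]
  ext <;> simp [e1, e2, e3]

theorem rot_wd (a b x y : Q) : rot (wd a b x y) = rot a * rot b * (rot a)ᵀ * (rot b)ᵀ *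
    (rot x * rot y * (rot x)ᵀ * (rot y)ᵀ) := by
  simp only [wd, rot_mul, rot_star]

theorem Y.mem {ε : ℝ} (hε : ε * ε = 1) {a b x y : Q} (h : Y ε a b x y) : T a b x y ∈ Om ε := by
  obtain ⟨h1, h2, h3, h4, h5, h6, h7, h8⟩ := h
  have n1 := N_ne1 h1; have n2 := N_ne1 h2; have n3 := N_ne1 h3; have n4 := N_ne1 h4
  have h0 : ε ≠ 0 := by rintro rfl; simp at hε
  refine ⟨?_, ?_, ?_⟩
  · rintro ⟨i, j⟩
    fin_cases i <;> fin_cases j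
    exacts [rot_SO n1, rot_SO n2, rot_SO n3, rot_SO n4]
  · show rot a * rot b * (rot a)ᵀ * (rot b)ᵀ * (rot x * rot y * (rot x)ᵀ * (rot y)ᵀ) = 1
    rw [← rot_wd, h5, rot_smul (by positivity), rot_one]
  · show ff ε (cay (rot a)) (cay (rot b)) (cay (rot x)) (cay (rot y)) ≠ 0
    rw [cay_rot1 h1, cay_rot1 h2, cay_rot1 h3, cay_rot1 h4, ff_smul]
    have : G4 ε a b x y = 2 * (ε * (N a * N b * N x * N y)) := by
      rw [G4, h5]; simp; ring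
    rw [ff, h1, h2, h3, h4, this]
    positivity

theorem Om_Y {ε : ℝ} (hε : ε * ε = 1) {A : Tup ℝ} (h : A ∈ Om ε) :
    Y ε (nl (A (0, 0))) (nl (A (0, 1))) (nl (A (1, 0))) (nl (A (1, 1))) ∧
      A = T (nl (A (0, 0))) (nl (A (0, 1))) (nl (A (1, 0))) (nl (A (1, 1))) := by
  obtain ⟨h1, h2, h3⟩ := h
  have k := h3
  simp only [fA, ff, mul_ne_zero_iff] at k
  obtain ⟨⟨⟨⟨⟨⟨⟨k1, k2⟩, k3⟩, k4⟩, -⟩, -⟩, -⟩, -⟩ := k
  have e : ∀ i, (cay (A i)).re ≠ 0 → (nl (A i)).re = 1 ∧ rot (nl (A i)) = A i := fun i hi =>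
    ⟨by rw [nl, Quaternion.re_smul, smul_eq_mul, inv_mul_cancel₀ hi],
      by rw [nl, rot_smul (inv_ne_zero hi), (rot_cay (h1 i) hi).2]⟩
  have k : ff ε (nl (A (0, 0))) (nl (A (0, 1))) (nl (A (1, 0))) (nl (A (1, 1))) ≠ 0 := by
    simp only [nl, ff_smul]
    refine mul_ne_zero (by positivity) h3
  obtain ⟨a1, a2⟩ := e _ k1
  obtain ⟨b1, b2⟩ := e _ k2
  obtain ⟨x1, x2⟩ := e _ k3
  obtain ⟨y1, y2⟩ := e _ k4
  rw [← a2, ← b2, ← x2, ← y2, ← rot_wd] at h2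
  refine ⟨?_, ?_⟩
  · generalize nl (A (0, 0)) = a at *
    generalize nl (A (0, 1)) = b at *
    generalize nl (A (1, 0)) = x at *
    generalize nl (A (1, 1)) = y at *
    simp only [ff, mul_ne_zero_iff] at k
    obtain ⟨⟨⟨⟨-, k5⟩, k6⟩, k7⟩, k8⟩ := k
    refine ⟨a1, b1, x1, y1, ?_, k5, k6, k7⟩
    have hN : N (wd a b x y) = (N a * N b * N x * N y) ^ 2 := by
      simp only [wd, N_mul, N_star]; ring
    have n1 := N_ne1 a1; have n2 := N_ne1 b1; have n3 := N_ne1 x1; have n4 := N_ne1 y1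
    have h5 := rot_eq_one (by rw [hN]; positivity) h2
    rw [h5, N_smul, N_one] at hN
    rw [h5]
    congr 1
    apply mul_left_cancel₀ k8
    rw [G4]
    linear_combination hN - (N a * N b * N x * N y) ^ 2 * hε
  · funext ⟨i, j⟩
    fin_cases i <;> fin_cases j
    exacts [a2.symm, b2.symm, x2.symm, y2.symm]

theorem T_cj {r : Q} (hr : N r ≠ 0) (a b x y : Q) :
    T (cj r a) (cj r b) (cj r x) (cj r y) = fun i => rot r * T a b x y i * (rot r)ᵀ := by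
  funext ⟨i, j⟩
  fin_cases i <;> fin_cases j <;> exact rot_cj hr _

noncomputable def F1 (ε : ℝ) (A : Tup ℝ) : Fin 6 → ℝ :=
  co ε (nl (A (0, 0))) (nl (A (0, 1))) (nl (A (1, 0))) (nl (A (1, 1)))

noncomputable def s1 (ε : ℝ) (u : Fin 6 → ℝ) : Tup ℝ := T (sa u) (sb u) (sx ε u) (sy ε u)

theorem F1_T {ε : ℝ} {a b x y : Q} (h : Y ε a b x y) : F1 ε (T a b x y) = co ε a b x y := by
  show co ε (nl (rot a)) (nl (rot b)) (nl (rot x)) (nl (rot y)) = _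
  rw [nl_rot h.1, nl_rot h.2.1, nl_rot h.2.2.1, nl_rot h.2.2.2.1]

theorem s1_spec {ε : ℝ} (hε : ε * ε = 1) {u : Fin 6 → ℝ} (hu : u ∈ U ε) :
    s1 ε u ∈ Om ε ∧ F1 ε (s1 ε u) = u := by
  obtain ⟨h1, h2⟩ := sec_spec hε hu
  exact ⟨h1.mem hε, by rw [s1, F1_T h1, h2]⟩

theorem F1_spec {ε : ℝ} (hε : ε * ε = 1) {A : Tup ℝ} (h : A ∈ Om ε) :
    F1 ε A ∈ U ε ∧ ∃ g, SO g ∧ A = fun i => g * s1 ε (F1 ε A) i * gᵀ := by
  obtain ⟨h1, h2⟩ := Om_Y hε h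
  obtain ⟨k0, r, hr, k1, k2, k3, k4⟩ := h1.norm hε (u := F1 ε A) rfl
  refine ⟨k0, rot r, rot_SO hr, ?_⟩
  rw [s1, ← T_cj hr, ← k1, ← k2, ← k3, ← k4]
  exact h2

theorem F1_conj {ε : ℝ} (hε : ε * ε = 1) {A : Tup ℝ} (h : A ∈ Om ε) {g : M3 ℝ} (hg : SO g) :
    (fun i => g * A i * gᵀ) ∈ Om ε ∧ F1 ε (fun i => g * A i * gᵀ) = F1 ε A := by
  obtain ⟨h1, h2⟩ := Om_Y hε h
  obtain ⟨r, hr, rfl⟩ := rot_surj hg
  have e : (fun i => rot r * A i * (rot r)ᵀ) = T (cj r (nl (A (0, 0)))) (cj r (nl (A (0, 1))))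
      (cj r (nl (A (1, 0)))) (cj r (nl (A (1, 1)))) := by
    rw [T_cj hr, ← h2]
  rw [e]
  exact ⟨(h1.cjj hr).mem hε, by rw [F1_T (h1.cjj hr), co_cj ε hr]; rfl⟩

theorem free1 {ε : ℝ} (hε : ε * ε = 1) {A : Tup ℝ} (h : A ∈ Om ε) {g : M3 ℝ} (hg : SO g)
    (e : (fun i => g * A i * gᵀ) = A) : g = 1 := by
  obtain ⟨hu, k, hk, e2⟩ := F1_spec hε h
  generalize F1 ε A = u at hu e2
  obtain ⟨r, hr, e3⟩ := rot_surj ((hk.tr.mul hg).mul hk)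
  have key : ∀ i, rot r * s1 ε u i * (rot r)ᵀ = s1 ε u i := by
    intro i
    have := congrFun e i
    rw [e2] at this
    simp only at this
    rw [e3]
    calc _ = kᵀ * (g * (k * s1 ε u i * kᵀ) * gᵀ) * k := by
          simp only [transpose_mul, transpose_transpose, Matrix.mul_assoc]
      _ = (kᵀ * k) * s1 ε u i * (kᵀ * k) := by rw [this]; simp only [Matrix.mul_assoc]
      _ = _ := by rw [hk.tm, Matrix.one_mul, Matrix.mul_one]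
  have fix : ∀ p : Q, p.re = 1 → rot r * rot p * (rot r)ᵀ = rot p → r * p = p * r := by
    intro p hp hh
    rw [← rot_cj hr] at hh
    have h2 := congrArg nl hh
    rw [nl_rot hp, nl_rot (by rw [cj_re hr, hp])] at h2
    calc r * p = cj r p * r := by
          simp only [cj, smul_mul_assoc, mul_assoc, star_mul'', mul_smul_comm, mul_one, smul_smul,
            inv_mul_cancel₀ hr, one_smul]
      _ = _ := by rw [h2]
  have f1 := fix (sa u) rfl (key (0, 0))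
  have f2 := fix (sb u) rfl (key (0, 1))
  have g1 := congrArg (fun q : Q => q.imJ) f1
  have g2 := congrArg (fun q : Q => q.imK) f1
  have g3 := congrArg (fun q : Q => q.imK) f2
  simp [sa, sb] at g1 g2 g3
  have p0 := hu.1.1.ne'; have p2 := hu.1.2.1.ne'
  have r3 : r.imK = 0 := mul_left_cancel₀ p0 (by linear_combination (1/2) * g1)
  have r2 : r.imJ = 0 := mul_left_cancel₀ p0 (by linear_combination (-1/2) * g2)
  have r1 : r.imI = 0 := mul_left_cancel₀ p2 (by linear_combination (1/2) * g3 + u 1 * r2)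
  have hr1 : r = r.re • (1 : Q) := by ext <;> simp [r1, r2, r3]
  have h0 : r.re ≠ 0 := by
    intro h0; apply hr; simp [N, h0, r1, r2, r3]
  rw [hr1, rot_smul h0, rot_one] at e3
  calc g = (k * kᵀ) * g * (k * kᵀ) := by rw [hk.1, Matrix.one_mul, Matrix.mul_one]
    _ = k * (kᵀ * g * k) * kᵀ := by simp only [Matrix.mul_assoc]
    _ = 1 := by rw [← e3, Matrix.mul_one, hk.1]

theorem G4_zero {A : Tup ℝ} (h : A ∈ Om 1) :
    G4 (-1) (cay (A (0, 0))) (cay (A (0, 1))) (cay (A (1, 0))) (cay (A (1, 1))) = 0 := by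
  obtain ⟨h1, h2⟩ := Om_Y (by norm_num) h
  generalize nl (A (0, 0)) = a at *
  generalize nl (A (0, 1)) = b at *
  generalize nl (A (1, 0)) = x at *
  generalize nl (A (1, 1)) = y at *
  subst h2
  show G4 (-1) (cay (rot a)) (cay (rot b)) (cay (rot x)) (cay (rot y)) = 0
  rw [cay_rot1 h1.1, cay_rot1 h1.2.1, cay_rot1 h1.2.2.1, cay_rot1 h1.2.2.2.1, G4_smul, G4,
    h1.2.2.2.2.1]
  simp

theorem G4_ne {A : Tup ℝ} (h : A ∈ Om (-1)) :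
    G4 (-1) (cay (A (0, 0))) (cay (A (0, 1))) (cay (A (1, 0))) (cay (A (1, 1))) ≠ 0 :=
  right_ne_zero_of_mul h.2.2

end Pool.Agent.H.MP_f64102_gt
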