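import Mathlib

namespace Pool.Agent.H.MP_f64102_gt

variable {ι : Type} [Fintype ι] [DecidableEq ι]

/-- `F`-points of the closed subvariety of `GL(ι)` cut out by the rational polynomials `S`. -/
def pts (S : Set (MvPolynomial (ι × ι) ℚ)) (F : Type) [Field F] [Algebra ℚ F] :
    Set (Matrix ι ι F) :=
  {M | M.det ≠ 0 ∧ ∀ p ∈ S, MvPolynomial.aeval (fun x : ι × ι => M x.1 x.2) p = 0}

/-- A set of invertible matrices containing 1 and closed under product and inverse. -/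
def IsGrp {F : Type} [Field F] (G : Set (Matrix ι ι F)) : Prop :=
  1 ∈ G ∧ (∀ a ∈ G, ∀ b ∈ G, a * b ∈ G) ∧ ∀ a ∈ G, a.det ≠ 0 ∧ a⁻¹ ∈ G

/-- `S` defines a connected reductive linear algebraic group over `ℚ`: the complex points form a
connected group, in which every normal subgroup made of unipotent matrices is trivial. -/
def ConnRed (S : Set (MvPolynomial (ι × ι) ℚ)) : Prop :=
  IsGrp (pts S ℂ) ∧ IsConnected (pts S ℂ) ∧
    ∀ U ⊆ pts S ℂ, IsGrp U → (∀ g ∈ pts S ℂ, ∀ u ∈ U, g * u * g⁻¹ ∈ U) →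
      (∀ u ∈ U, IsNilpotent (u - 1)) → U = {1}

/-- `Hom(π₁(S_g), G)`, through the images `ρ (i,0), ρ (i,1)` of the standard generators
`a_i, b_i`, subject to `[a_1,b_1] ⋯ [a_g,b_g] = 1`. -/
def Hom (g : ℕ) (G : Set (Matrix ι ι ℝ)) : Set (Fin g × Fin 2 → Matrix ι ι ℝ) :=
  {ρ | (∀ i, ρ i ∈ G) ∧
    (List.ofFn fun i => ρ (i, 0) * ρ (i, 1) * (ρ (i, 0))⁻¹ * (ρ (i, 1))⁻¹).prod = 1}

/-- Conjugate of a tuple of matrices. -/
noncomputable def conj {κ : Type} (h : Matrix ι ι ℝ) (ρ : κ → Matrix ι ι ℝ) :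
    κ → Matrix ι ι ℝ := fun i => h * ρ i * h⁻¹

/-- `Ω` is Zariski open in `H`: the complement in `H` of the common zeros of a set of real
polynomials in the matrix entries. -/
def ZOpen {κ : Type} (H Ω : Set (κ → Matrix ι ι ℝ)) : Prop :=
  ∃ T : Set (MvPolynomial (κ × ι × ι) ℝ),
    Ω = {ρ ∈ H | ∃ p ∈ T, MvPolynomial.eval (fun x : κ × ι × ι => ρ x.1 x.2.1 x.2.2) p ≠ 0}

/-- The quotient `Ω / r` (quotient topology) is homeomorphic to an open subset of `V`, by a map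
`e` induced by a smooth map `F` on `Ω` that has a smooth section `s`. -/
def GlobalChart {W : Type} [NormedAddCommGroup W] [NormedSpace ℝ W]
    (V : Type) [NormedAddCommGroup V] [NormedSpace ℝ V] (Ω : Set W) (r : Ω → Ω → Prop) : Prop :=
  ∃ (e : Quot r → V) (F : W → V) (s : V → W), Topology.IsOpenEmbedding e ∧
    (∀ x : Ω, e (Quot.mk r x) = F x) ∧ ContDiffOn ℝ (⊤ : ℕ∞) F Ω ∧
    ContDiffOn ℝ (⊤ : ℕ∞) s (Set.range e) ∧ ∀ u ∈ Set.range e, s u ∈ Ω ∧ F (s u) = u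

end Pool.Agent.H.MP_f64102_gt
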