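import Pool.Agent.H.MP_f64102_gt.C

namespace Pool.Agent.H.MP_f64102_gt
open Matrix
open scoped ContDiff

section
variable {X : Type} [NormedAddCommGroup X] [NormedSpace ℝ X] {x : X}

/-- componentwise smoothness of a quaternion valued function -/
def Sm (f : X → Q) (x : X) : Prop :=
  ContDiffAt ℝ ∞ (fun z => (f z).re) x ∧ ContDiffAt ℝ ∞ (fun z => (f z).imI) x ∧
  ContDiffAt ℝ ∞ (fun z => (f z).imJ) x ∧ ContDiffAt ℝ ∞ (fun z => (f z).imK) x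

variable {f g : X → Q}

theorem Sm.mul (hf : Sm f x) (hg : Sm g x) : Sm (fun z => f z * g z) x := by
  obtain ⟨a, b, c, d⟩ := hf
  obtain ⟨a', b', c', d'⟩ := hg
  simp only [Sm, Quaternion.re_mul, Quaternion.imI_mul, Quaternion.imJ_mul, Quaternion.imK_mul]
  exact ⟨(((a.mul a').sub (b.mul b')).sub (c.mul c')).sub (d.mul d'),
    (((a.mul b').add (b.mul a')).add (c.mul d')).sub (d.mul c'),
    (((a.mul c').sub (b.mul d')).add (c.mul a')).add (d.mul b'),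
    (((a.mul d').add (b.mul c')).sub (c.mul b')).add (d.mul a')⟩

theorem Sm.add (hf : Sm f x) (hg : Sm g x) : Sm (fun z => f z + g z) x :=
  ⟨hf.1.add hg.1, hf.2.1.add hg.2.1, hf.2.2.1.add hg.2.2.1, hf.2.2.2.add hg.2.2.2⟩

theorem Sm.sub (hf : Sm f x) (hg : Sm g x) : Sm (fun z => f z - g z) x := by
  simp only [Sm, Quaternion.re_sub, Quaternion.imI_sub, Quaternion.imJ_sub, Quaternion.imK_sub]
  exact ⟨hf.1.sub hg.1, hf.2.1.sub hg.2.1, hf.2.2.1.sub hg.2.2.1, hf.2.2.2.sub hg.2.2.2⟩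

theorem Sm.smul {c : X → ℝ} (hc : ContDiffAt ℝ ∞ c x) (hg : Sm g x) :
    Sm (fun z => c z • g z) x :=
  ⟨hc.mul hg.1, hc.mul hg.2.1, hc.mul hg.2.2.1, hc.mul hg.2.2.2⟩

theorem Sm.st (hf : Sm f x) : Sm (fun z => star (f z)) x := by
  simp only [Sm, Quaternion.re_star, Quaternion.imI_star, Quaternion.imJ_star, Quaternion.imK_star]
  exact ⟨hf.1, hf.2.1.neg, hf.2.2.1.neg, hf.2.2.2.neg⟩

theorem Sm.const (q : Q) : Sm (fun _ : X => q) x :=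
  ⟨contDiffAt_const, contDiffAt_const, contDiffAt_const, contDiffAt_const⟩

theorem Sm.n (hf : Sm f x) : ContDiffAt ℝ ∞ (fun z => N (f z)) x :=
  (((hf.1.pow 2).add (hf.2.1.pow 2)).add (hf.2.2.1.pow 2)).add (hf.2.2.2.pow 2)

theorem Sm.ni (hf : Sm f x) : ContDiffAt ℝ ∞ (fun z => Ni (f z)) x := hf.n.sub (hf.1.pow 2)

theorem Sm.k (ε : ℝ) (hf : Sm f x) (hg : Sm g x) : Sm (fun z => Kq ε (f z) (g z)) x :=
  Sm.smul contDiffAt_const (((hf.mul hg).mul hf.st).mul hg.st)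

theorem Sm.d (ε : ℝ) {h : X → Q} (hf : Sm f x) (hg : Sm g x) (hh : Sm h x) :
    Sm (fun z => Dq ε (f z) (g z) (h z)) x :=
  ((hf.k ε hg).mul hh).add (Sm.smul (hf.n.mul hg.n) hh)

theorem Sm.y {c : X → ℝ} (hf : Sm f x) (hg : Sm g x) (hc : ContDiffAt ℝ ∞ c x)
    (h0 : Ni (f x + g x) ≠ 0) : Sm (fun z => yy (f z) (g z) (c z)) x := by
  have h1 := (hf.add hg).sub (Sm.smul (hf.add hg).1 (Sm.const 1))
  exact ((Sm.const 1).add (Sm.smul hc h1)).sub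
    (Sm.smul ((hf.add hg).ni.inv h0) (h1.mul (hg.sub hf)))

theorem Sm.r (hf : Sm f x) (h0 : N (f x) ≠ 0) (i j : Fin 3) :
    ContDiffAt ℝ ∞ (fun z => rot (f z) i j) x := by
  have h1 := hf.n.inv h0
  obtain ⟨a, b, c, d⟩ := hf
  refine h1.mul (g := fun z => Rm (f z) i j) ?_
  generalize ha : (fun z => (f z).re) = a' at a
  generalize hb : (fun z => (f z).imI) = b' at b
  generalize hc : (fun z => (f z).imJ) = c' at c
  generalize hd : (fun z => (f z).imK) = d' at d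
  have ea := congrFun ha; have eb := congrFun hb; have ec := congrFun hc; have ed := congrFun hd
  fin_cases i <;> fin_cases j <;> simp [Rm, ea, eb, ec, ed] <;> fun_prop

theorem sm_nl {A : X → M3 ℝ} (hA : ∀ i j, ContDiffAt ℝ ∞ (fun z => A z i j) x)
    (h0 : (cay (A x)).re ≠ 0) : Sm (fun z => nl (A z)) x := by
  have h1 : Sm (fun z => cay (A z)) x :=
    ⟨((contDiffAt_const.add (hA 0 0)).add (hA 1 1)).add (hA 2 2), (hA 2 1).sub (hA 1 2),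
      (hA 0 2).sub (hA 2 0), (hA 1 0).sub (hA 0 1)⟩
  exact Sm.smul (h1.1.inv h0) h1

theorem sm_F1 {ε : ℝ} (hε : ε * ε = 1) {A : X → Tup ℝ}
    (hA : ∀ k i j, ContDiffAt ℝ ∞ (fun z => A z k i j) x) (h0 : A x ∈ Om ε) :
    ContDiffAt ℝ ∞ (fun z => F1 ε (A z)) x := by
  have k := h0.2.2
  simp only [fA, ff, mul_ne_zero_iff] at k
  obtain ⟨⟨⟨⟨⟨⟨⟨k1, k2⟩, k3⟩, k4⟩, -⟩, -⟩, -⟩, -⟩ := k
  have a := sm_nl (hA (0, 0)) k1
  have b := sm_nl (hA (0, 1)) k2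
  have c := sm_nl (hA (1, 0)) k3
  have d := sm_nl (hA (1, 1)) k4
  have hu := (F1_spec hε h0).1
  have p0 : 0 < c0 (nl (A x (0, 0))) := hu.1.1
  have p2 : 0 < c2 (nl (A x (0, 0))) (nl (A x (0, 1))) := hu.1.2.1
  have s0 : ContDiffAt ℝ ∞ (fun z => c0 (nl (A z (0, 0)))) x :=
    (contDiffAt_const.sub (a.mul a).1).sqrt (Real.sqrt_pos.mp p0).ne'
  have s1 : ContDiffAt ℝ ∞ (fun z => c1 (nl (A z (0, 0))) (nl (A z (0, 1)))) x :=
    (contDiffAt_const.sub (a.mul b).1).div s0 p0.ne'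
  have s3 : ContDiffAt ℝ ∞ (fun z => c1 (nl (A z (0, 0))) (nl (A z (1, 0)))) x :=
    (contDiffAt_const.sub (a.mul c).1).div s0 p0.ne'
  have s2 : ContDiffAt ℝ ∞ (fun z => c2 (nl (A z (0, 0))) (nl (A z (0, 1)))) x :=
    ((contDiffAt_const.sub (b.mul b).1).sub (s1.pow 2)).sqrt (Real.sqrt_pos.mp p2).ne'
  have s4 : ContDiffAt ℝ ∞
      (fun z => c4 (nl (A z (0, 0))) (nl (A z (0, 1))) (nl (A z (1, 0)))) x :=
    ((contDiffAt_const.sub (b.mul c).1).sub (s1.mul s3)).div s2 p2.ne'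
  have s5 : ContDiffAt ℝ ∞ (fun z => tt (Dq ε (nl (A z (0, 0))) (nl (A z (0, 1)))
      (nl (A z (1, 0)))) (nl (A z (1, 1)))) x :=
    ((a.d ε b c).1.sub ((a.d ε b c).mul d).1).div (a.d ε b c).ni (Om_Y hε h0).1.2.2.2.2.2.2.2
  rw [contDiffAt_pi]
  intro i
  fin_cases i
  exacts [s0, s1, s2, s3, s4, s5]

theorem sm_sx {ε : ℝ} (hε : ε * ε = 1) {u : X → Fin 6 → ℝ} (hu : ContDiffAt ℝ ∞ u x)
    (h : 0 < u x 0 ∧ 0 < u x 2 ∧ 1 - u x 0 * u x 1 ≠ 0) :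
    Sm (fun z => sa (u z)) x ∧ Sm (fun z => sb (u z)) x ∧ Sm (fun z => sx ε (u z)) x := by
  have e := contDiffAt_pi.mp hu
  have a : Sm (fun z => sa (u z)) x := ⟨contDiffAt_const, e 0, contDiffAt_const, contDiffAt_const⟩
  have b : Sm (fun z => sb (u z)) x := ⟨contDiffAt_const, e 1, e 2, contDiffAt_const⟩
  have k := a.k ε b
  exact ⟨a, b, contDiffAt_const, e 3, e 4, (((k.1.sub (a.n.mul b.n)).sub (k.2.1.mul (e 3))).sub
    (k.2.2.1.mul (e 4))).div k.2.2.2 (K_ne hε h)⟩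

theorem sm_s1 {ε : ℝ} (hε : ε * ε = 1) {u : X → Fin 6 → ℝ} (hu : ContDiffAt ℝ ∞ u x)
    (h : u x ∈ U ε) (k : Fin 2 × Fin 2) (i j : Fin 3) :
    ContDiffAt ℝ ∞ (fun z => s1 ε (u z) k i j) x := by
  obtain ⟨a, b, c⟩ := sm_sx hε hu h.1
  have d : Sm (fun z => sy ε (u z)) x :=
    ((a.k ε b).mul c).y (Sm.smul (a.n.mul b.n) c) (contDiffAt_pi.mp hu 5) h.2
  have hy := (sec_spec hε h).1
  obtain ⟨k1, k2⟩ := k
  fin_cases k1 <;> fin_cases k2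
  exacts [a.r (N_ne1 hy.1) i j, b.r (N_ne1 hy.2.1) i j, c.r (N_ne1 hy.2.2.1) i j,
    d.r (N_ne1 hy.2.2.2.1) i j]

end

theorem U_open {ε : ℝ} (hε : ε * ε = 1) : IsOpen (U ε) := by
  rw [isOpen_iff_mem_nhds]
  intro u hu
  obtain ⟨a, b, c⟩ := sm_sx (u := id) hε contDiffAt_id hu.1
  have h1 := (a.d ε b c).ni.continuousAt.eventually_ne hu.2
  have h2 : IsOpen {u : Fin 6 → ℝ | 0 < u 0 ∧ 0 < u 2 ∧ 1 - u 0 * u 1 ≠ 0} :=
    (isOpen_lt continuous_const (continuous_apply 0)).inter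
      ((isOpen_lt continuous_const (continuous_apply 2)).inter
        (isOpen_ne_fun (by fun_prop) continuous_const))
  filter_upwards [h1, h2.mem_nhds hu.1] with v h3 h4
  exact ⟨h4, h3⟩

end Pool.Agent.H.MP_f64102_gt
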