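import Pool.Agent.H.MP_f64102_gt.D
import Pool.Agent.H.MP_f64102_gt.E

namespace Pool.Agent.H.MP_f64102_gt
open Matrix Sum

abbrev I6 := Fin 3 ⊕ Fin 3

section Ring
variable {R : Type} [CommRing R]

def pr (e : R) (M : Matrix I6 I6 R) : M3 R := fun i j => M (inl i) (inl j) + e * M (inr i) (inl j)

def E3 (M : Matrix I6 I6 R) (i j : Fin 3) : R :=
  ∑ k, (M (inl i) (inl k) * M (inl j) (inl k) + 2 * (M (inr i) (inl k) * M (inr j) (inl k))) -
    if i = j then 1 else 0
def E4 (M : Matrix I6 I6 R) (i j : Fin 3) : R :=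
  ∑ k, (M (inl i) (inl k) * M (inr j) (inl k) + M (inr i) (inl k) * M (inl j) (inl k))
def E5 (M : Matrix I6 I6 R) : R :=
  (pr 0 M).det + ((pr 1 M).det + (pr (-1) M).det - 2 * (pr 0 M).det) - 1

def eqs (M : Matrix I6 I6 R) (x : Fin 5 × Fin 3 × Fin 3) : R :=
  ![M (inr x.2.1) (inr x.2.2) - M (inl x.2.1) (inl x.2.2),
    M (inl x.2.1) (inr x.2.2) - 2 * M (inr x.2.1) (inl x.2.2),
    E3 M x.2.1 x.2.2, E4 M x.2.1 x.2.2, E5 M] x.1

theorem pr_map {S : Type} [CommRing S] (φ : R →+* S) (e : R) (M : Matrix I6 I6 R) :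
    (pr e M).map φ = pr (φ e) (M.map φ) := by
  ext i j; simp [pr]

theorem map_eqs {S : Type} [CommRing S] (φ : R →+* S) (M : Matrix I6 I6 R)
    (x : Fin 5 × Fin 3 × Fin 3) : φ (eqs M x) = eqs (M.map φ) x := by
  obtain ⟨k, i, j⟩ := x
  fin_cases k
  · simp [eqs]
  · simp [eqs, map_ofNat]
  · simp [eqs, E3, apply_ite φ, map_ofNat]
  · simp [eqs, E4]
  · simp [eqs, E5, det_fin_three, pr, map_ofNat]

theorem L1 {e : R} (he : e * e = 2) (M : Matrix I6 I6 R) (i j : Fin 3) :
    (pr e M * (pr e M)ᵀ) i j - (1 : M3 R) i j = E3 M i j + e * E4 M i j := by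
  simp only [Matrix.mul_apply, transpose_apply, pr, E3, E4, one_apply, Fin.sum_univ_three]
  linear_combination (M (inr i) (inl 0) * M (inr j) (inl 0) + M (inr i) (inl 1) * M (inr j) (inl 1)
    + M (inr i) (inl 2) * M (inr j) (inl 2)) * he

theorem L2 {e : R} (he : e * e = 2) (M : Matrix I6 I6 R) :
    (pr e M).det + (pr (-e) M).det = 2 * (E5 M + 1) := by
  have : (pr e M).det + (pr (-e) M).det = 2 * (pr 0 M).det +
      e * e * ((pr 1 M).det + (pr (-1) M).det - 2 * (pr 0 M).det) := by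
    simp only [det_fin_three, pr]; ring
  rw [this, he, E5]; ring

end Ring

noncomputable def SS : Set (MvPolynomial (I6 × I6) ℚ) :=
  Set.range (eqs (Matrix.of fun i j => MvPolynomial.X (i, j)))

section Field
variable {F : Type} [Field F] [CharZero F]

noncomputable def blk (θ : F) (A B : M3 F) : Matrix I6 I6 F :=
  fromBlocks ((1 / 2 : F) • (A + B)) ((θ / 2) • (A - B)) ((θ / 4) • (A - B)) ((1 / 2 : F) • (A + B))

variable {θ : F} (hθ : θ * θ = 2)

theorem blk_one : blk θ 1 1 = 1 := by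
  rw [blk, ← fromBlocks_one]
  congr 1 <;> module

theorem blk_trace (A B : M3 F) : (blk θ A B).trace = A.trace + B.trace := by
  simp [blk, Matrix.trace, Fin.sum_univ_three]; ring

include hθ

theorem blk_mul (A B C D : M3 F) : blk θ A B * blk θ C D = blk θ (A * C) (B * D) := by
  simp only [blk, fromBlocks_multiply, Matrix.smul_mul, Matrix.mul_smul, Matrix.add_mul,
    Matrix.mul_add, Matrix.sub_mul, Matrix.mul_sub, smul_smul]
  have h1 : θ / 4 * (θ / 2) = 1 / 4 := by linear_combination (1 / 8) * hθ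
  have h2 : θ / 2 * (θ / 4) = 1 / 4 := by linear_combination (1 / 8) * hθ
  congr 1
  · ext i j; simp; linear_combination ((A * C) i j - (B * C) i j - (A * D) i j + (B * D) i j) * h1
  · module
  · module
  · ext i j; simp; linear_combination ((A * C) i j - (B * C) i j - (A * D) i j + (B * D) i j) * h1

theorem pr_blk1 (A B : M3 F) : pr θ (blk θ A B) = A := by
  ext i j; simp [pr, blk]; linear_combination (A i j - B i j) / 4 * hθ

theorem pr_blk2 (A B : M3 F) : pr (-θ) (blk θ A B) = B := by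
  ext i j; simp [pr, blk]; linear_combination -(A i j - B i j) / 4 * hθ

theorem blk_mul_tr {A B : M3 F} (hA : SO A) (hB : SO B) : blk θ A B * blk θ Aᵀ Bᵀ = 1 := by
  rw [blk_mul hθ, hA.1, hB.1, blk_one]

theorem blk_inv {A B : M3 F} (hA : SO A) (hB : SO B) : (blk θ A B)⁻¹ = blk θ Aᵀ Bᵀ :=
  Matrix.inv_eq_right_inv (blk_mul_tr hθ hA hB)

theorem blk_det {A B : M3 F} (hA : SO A) (hB : SO B) : (blk θ A B).det ≠ 0 := by
  have := congrArg det (blk_mul_tr hθ hA hB)
  rw [det_mul, det_one] at this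
  exact left_ne_zero_of_mul_eq_one this

theorem mem_pts {M : Matrix I6 I6 F} :
    M ∈ pts SS F ↔ ∃ A B, SO A ∧ SO B ∧ M = blk θ A B := by
  have hθ' : -θ * -θ = 2 := by linear_combination hθ
  have h0 : θ ≠ 0 := by rintro rfl; norm_num at hθ
  have e : (∀ p ∈ SS, MvPolynomial.aeval (fun x : I6 × I6 => M x.1 x.2) p = 0) ↔
      ∀ x, eqs M x = 0 := by
    simp only [SS, Set.forall_mem_range]
    refine forall_congr' fun x => ?_
    have := map_eqs (MvPolynomial.aeval (R := ℚ) (fun x : I6 × I6 => M x.1 x.2)).toRingHom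
      (Matrix.of fun i j => MvPolynomial.X (i, j)) x
    have e2 : (Matrix.of fun i j => MvPolynomial.X (i, j)).map
        (MvPolynomial.aeval (R := ℚ) (fun x : I6 × I6 => M x.1 x.2)).toRingHom = M := by
      ext i j; simp
    rw [e2] at this
    rw [← this]; rfl
  rw [pts, Set.mem_setOf_eq, e]
  constructor
  · rintro ⟨-, h⟩
    have o1 : pr θ M * (pr θ M)ᵀ = 1 := by
      ext i j
      have h3 : E3 M i j = 0 := h (2, i, j)
      have h4 : E4 M i j = 0 := h (3, i, j)
      linear_combination L1 hθ M i j + h3 + θ * h4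
    have o2 : pr (-θ) M * (pr (-θ) M)ᵀ = 1 := by
      ext i j
      have h3 : E3 M i j = 0 := h (2, i, j)
      have h4 : E4 M i j = 0 := h (3, i, j)
      linear_combination L1 hθ' M i j + h3 - θ * h4
    have d1 := congrArg det o1
    have d2 := congrArg det o2
    rw [det_mul, det_transpose, det_one] at d1 d2
    have h5 : E5 M = 0 := h (4, 0, 0)
    have d3 := L2 hθ M
    rw [h5] at d3
    have d4 : (pr θ M).det = 1 := by
      linear_combination (1 / 4) * d1 - (1 / 4) * d2 +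
        (1 / 4) * ((pr (-θ) M).det - (pr θ M).det + 2) * d3
    refine ⟨_, _, ⟨o1, d4⟩, ⟨o2, by linear_combination d3 - d4⟩, ?_⟩
    ext (i | i) (j | j)
    · simp [blk, pr]; ring
    · have h2 : M (inl i) (inr j) - 2 * M (inr i) (inl j) = 0 := h (1, i, j)
      simp [blk, pr]; linear_combination h2 - M (inr i) (inl j) * hθ
    · simp [blk, pr]; linear_combination -(1 / 2) * M (inr i) (inl j) * hθ
    · have h2 : M (inr i) (inr j) - M (inl i) (inl j) = 0 := h (0, i, j)
      simp [blk, pr]; linear_combination h2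
  · rintro ⟨A, B, hA, hB, rfl⟩
    refine ⟨blk_det hθ hA hB, ?_⟩
    rintro ⟨k, i, j⟩
    have a1 := L1 hθ (blk θ A B) i j
    have a2 := L1 hθ' (blk θ A B) i j
    have a3 := L2 hθ (blk θ A B)
    rw [pr_blk1 hθ, hA.1] at a1
    rw [pr_blk2 hθ, hB.1] at a2
    rw [pr_blk1 hθ, pr_blk2 hθ, hA.2, hB.2] at a3
    fin_cases k
    · simp [eqs, blk]
    · simp [eqs, blk]; ring
    · show E3 _ i j = 0
      linear_combination -(1 / 2) * a1 - (1 / 2) * a2
    · show E4 _ i j = 0
      exact mul_left_cancel₀ h0 (by linear_combination -(1 / 2) * a1 + (1 / 2) * a2)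
    · show E5 _ = 0
      linear_combination -(1 / 2) * a3

theorem isGrp : IsGrp (pts SS F) := by
  refine ⟨(mem_pts hθ).mpr ⟨1, 1, SO_one, SO_one, blk_one.symm⟩, ?_, ?_⟩
  · intro a ha b hb
    obtain ⟨A, B, hA, hB, rfl⟩ := (mem_pts hθ).mp ha
    obtain ⟨C, D, hC, hD, rfl⟩ := (mem_pts hθ).mp hb
    exact (mem_pts hθ).mpr ⟨_, _, hA.mul hC, hB.mul hD, blk_mul hθ _ _ _ _⟩
  · intro a ha
    refine ⟨ha.1, ?_⟩
    obtain ⟨A, B, hA, hB, rfl⟩ := (mem_pts hθ).mp ha
    exact (mem_pts hθ).mpr ⟨_, _, hA.tr, hB.tr, blk_inv hθ hA hB⟩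

theorem reductive (U : Set (Matrix I6 I6 F)) (h1 : U ⊆ pts SS F) (h2 : IsGrp U)
    (h3 : ∀ g ∈ pts SS F, ∀ u ∈ U, g * u * g⁻¹ ∈ U) (h4 : ∀ u ∈ U, IsNilpotent (u - 1)) :
    U = {1} := by
  refine Set.eq_singleton_iff_unique_mem.mpr ⟨h2.1, fun u hu => ?_⟩
  obtain ⟨A, B, hA, hB, rfl⟩ := (mem_pts hθ).mp (h1 hu)
  have key : ∀ g k, SO g → SO k →
      (A * (g * A * gᵀ)).trace + (B * (k * B * kᵀ)).trace = (1 : Matrix I6 I6 F).trace := by
    intro g k hg hk
    have := h4 _ (h2.2.1 _ hu _ (h3 _ ((mem_pts hθ).mpr ⟨g, k, hg, hk, rfl⟩) _ hu))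
    have := (Matrix.isNilpotent_trace_of_isNilpotent this).eq_zero
    rw [trace_sub, blk_inv hθ hg hk, blk_mul hθ, blk_mul hθ, blk_mul hθ, blk_trace] at this
    exact sub_eq_zero.mp this
  have k0 := key 1 1 SO_one SO_one
  simp only [Matrix.one_mul, transpose_one, Matrix.mul_one] at k0
  have eA : A = 1 := scalar_of_trace hA fun g hg => by
    have := key g 1 hg SO_one
    simp only [Matrix.one_mul, transpose_one, Matrix.mul_one] at this
    linear_combination this - k0
  have eB : B = 1 := scalar_of_trace hB fun g hg => by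
    have := key 1 g SO_one hg
    simp only [Matrix.one_mul, transpose_one, Matrix.mul_one] at this
    linear_combination this - k0
  rw [eA, eB, blk_one]

end Field

theorem line_fin (p : Quaternion ℂ) : {t : ℂ | N (1 + t • (p - 1)) = 0}.Finite := by
  have hP : (Polynomial.C (N (p - 1)) * Polynomial.X ^ 2 + Polynomial.C (2 * (p.re - 1)) *
      Polynomial.X + 1 : Polynomial ℂ) ≠ 0 := by
    intro h
    have := congrArg (Polynomial.eval 0) h
    simp at this
  refine (Polynomial.finite_setOf_isRoot hP).subset fun t ht => ?_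
  simp [N] at ht ⊢
  linear_combination ht

theorem line_cont (p : Quaternion ℂ) :
    ContinuousOn (fun t : ℂ => rot (1 + t • (p - 1))) {t : ℂ | N (1 + t • (p - 1)) = 0}ᶜ := by
  refine ContinuousOn.smul (ContinuousOn.inv₀ (Continuous.continuousOn ?_) fun t ht => ht)
    (Continuous.continuousOn (continuous_matrix fun i j => ?_))
  · simp [N]; fun_prop
  · fin_cases i <;> fin_cases j <;> simp [Rm] <;> fun_prop

theorem connRed : ConnRed SS := by
  obtain ⟨θ, hθ⟩ : ∃ θ : ℂ, θ * θ = 2 :=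
    ⟨(√2 : ℝ), by rw [← Complex.ofReal_mul, Real.mul_self_sqrt (by norm_num)]; norm_num⟩
  refine ⟨isGrp hθ, ⟨⟨1, (isGrp hθ).1⟩, isPreconnected_of_forall 1 fun M hM => ?_⟩, reductive hθ⟩
  obtain ⟨A, B, hA, hB, rfl⟩ := (mem_pts hθ).mp hM
  obtain ⟨p, hp, rfl⟩ := rot_surj hA
  obtain ⟨q, hq, rfl⟩ := rot_surj hB
  have hc := ((line_fin p).union (line_fin q)).countable.isPathConnected_compl_of_one_lt_rank
    (by rw [Complex.rank_real_complex]; norm_num)
  have hb : Continuous fun z : M3 ℂ × M3 ℂ => blk θ z.1 z.2 := by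
    unfold blk
    apply Continuous.matrix_fromBlocks <;> fun_prop
  have z0 : ∀ p : Quaternion ℂ, 1 + (0 : ℂ) • (p - 1) = 1 := fun p => by ext <;> simp
  have z1 : ∀ p : Quaternion ℂ, 1 + (1 : ℂ) • (p - 1) = p := fun p => by ext <;> simp
  refine ⟨(fun t : ℂ => blk θ (rot (1 + t • (p - 1))) (rot (1 + t • (q - 1)))) ''
    ({t : ℂ | N (1 + t • (p - 1)) = 0} ∪ {t : ℂ | N (1 + t • (q - 1)) = 0})ᶜ, ?_, ⟨0, ?_, ?_⟩,
    ⟨1, ?_, ?_⟩, hc.isConnected.isPreconnected.image _ ?_⟩
  · rintro _ ⟨t, ht, rfl⟩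
    rw [Set.compl_union] at ht
    exact (mem_pts hθ).mpr ⟨_, _, rot_SO ht.1, rot_SO ht.2, rfl⟩
  · simp [N]
  · simp only [z0, rot_one, blk_one]
  · simp only [Set.compl_union, Set.mem_inter_iff, Set.mem_compl_iff, Set.mem_setOf_eq, z1]
    exact ⟨hp, hq⟩
  · simp only [z1]
  · rw [Set.compl_union]
    have := hb.comp_continuousOn (((line_cont p).mono (Set.inter_subset_left
      (t := {t : ℂ | N (1 + t • (q - 1)) = 0}ᶜ))).prodMk
      ((line_cont q).mono Set.inter_subset_right))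
    simpa only [Function.comp_def] using this

end Pool.Agent.H.MP_f64102_gt
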