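import Pool.Agent.H.MP_f64102_gt.G

namespace Pool.Agent.H.MP_f64102_gt
open Matrix Sum
open scoped ContDiff Matrix.Norms.Elementwise

theorem chart_of {W : Type} [NormedAddCommGroup W] [NormedSpace ℝ W]
    {V : Type} [NormedAddCommGroup V] [NormedSpace ℝ V] {Ω : Set W} {r : Ω → Ω → Prop}
    (F : W → V) (s : V → W) (V0 : Set V) (hV : IsOpen V0) (hF : ContDiffOn ℝ ∞ F Ω)
    (hs : ContDiffOn ℝ ∞ s V0) (h1 : ∀ u ∈ V0, s u ∈ Ω ∧ F (s u) = u) (h2 : ∀ x ∈ Ω, F x ∈ V0)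
    (h3 : ∀ x y : Ω, r x y → F x = F y)
    (h4 : ∀ x : Ω, r ⟨s (F x), (h1 _ (h2 _ x.2)).1⟩ x) : GlobalChart V Ω r := by
  let e : Quot r → V := Quot.lift (fun x => F x) h3
  have he : Continuous e := continuous_quot_lift _ hF.continuousOn.restrict
  have hm : ∀ q, e q ∈ V0 := fun q => by
    induction q using Quot.ind with | mk x => exact h2 _ x.2
  let H : Quot r ≃ₜ V0 :=
    { toFun := fun q => ⟨e q, hm q⟩
      invFun := fun u => Quot.mk r ⟨s u, (h1 _ u.2).1⟩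
      left_inv := fun q => by
        induction q using Quot.ind with | mk x => exact Quot.sound (h4 x)
      right_inv := fun u => Subtype.ext (h1 _ u.2).2
      continuous_toFun := he.subtype_mk hm
      continuous_invFun := continuous_quot_mk.comp (hs.continuousOn.restrict.subtype_mk _) }
  have hr : Set.range e = V0 := by
    ext u
    constructor
    · rintro ⟨q, rfl⟩; exact (H q).2
    · intro hu; exact ⟨H.symm ⟨u, hu⟩, congrArg Subtype.val (H.apply_symm_apply ⟨u, hu⟩)⟩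
  exact ⟨e, F, s, hV.isOpenEmbedding_subtypeVal.comp H.isOpenEmbedding, fun _ => rfl, hF,
    hr ▸ hs, hr ▸ h1⟩

theorem map_fA {R S : Type} [CommRing R] [CommRing S] (φ : R →+* S) (ε : R) (A : Tup R) :
    φ (fA ε A) = fA (φ ε) fun i => (A i).map φ := by
  simp only [fA, map_ff, qm_cay]

theorem galois {θ : ℝ} (hθ : θ * θ = 2) (hi : Irrational θ) (h : Polynomial ℚ)
    (h0 : Polynomial.aeval θ h = 0) : Polynomial.aeval (-θ) h = 0 := by
  have : ∃ a b : ℚ, Polynomial.aeval θ h = a + b * θ ∧ Polynomial.aeval (-θ) h = a - b * θ := by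
    clear h0
    induction h using Polynomial.induction_on with
    | C a => exact ⟨a, 0, by simp, by simp⟩
    | add p q hp hq =>
      obtain ⟨a, b, h1, h2⟩ := hp
      obtain ⟨c, d, h3, h4⟩ := hq
      refine ⟨a + c, b + d, ?_, ?_⟩
      · rw [map_add, h1, h3]; push_cast; ring
      · rw [map_add, h2, h4]; push_cast; ring
    | monomial n c hp =>
      obtain ⟨a, b, h1, h2⟩ := hp
      refine ⟨2 * b, a, ?_, ?_⟩
      · rw [pow_succ, ← mul_assoc, map_mul, h1, Polynomial.aeval_X]; push_cast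
        linear_combination b * hθ
      · rw [pow_succ, ← mul_assoc, map_mul, h2, Polynomial.aeval_X]; push_cast
        linear_combination b * hθ
  obtain ⟨a, b, h1, h2⟩ := this
  rw [h0] at h1
  have hb : b = 0 := by
    by_contra hb
    apply hi
    refine ⟨-a / b, ?_⟩
    have : (b : ℝ) ≠ 0 := by exact_mod_cast hb
    push_cast; field_simp; linear_combination h1
  rw [h2]
  rw [hb] at h1 ⊢
  simpa using h1.symm

abbrev T6 := Fin 2 × Fin 2 → Matrix I6 I6 ℝ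

def Omg (θ : ℝ) : Set T6 := {ρ | ∃ A ∈ Om 1, ∃ B ∈ Om (-1), ρ = fun i => blk θ (A i) (B i)}

variable {θ : ℝ} (hθ : θ * θ = 2)
include hθ

theorem rel_blk {A B : Tup ℝ} (hA : ∀ i, SO (A i)) (hB : ∀ i, SO (B i)) :
    (List.ofFn fun i : Fin 2 => blk θ (A (i, 0)) (B (i, 0)) * blk θ (A (i, 1)) (B (i, 1)) *
      (blk θ (A (i, 0)) (B (i, 0)))⁻¹ * (blk θ (A (i, 1)) (B (i, 1)))⁻¹).prod =
    blk θ (A (0, 0) * A (0, 1) * (A (0, 0))ᵀ * (A (0, 1))ᵀ *
      (A (1, 0) * A (1, 1) * (A (1, 0))ᵀ * (A (1, 1))ᵀ))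
      (B (0, 0) * B (0, 1) * (B (0, 0))ᵀ * (B (0, 1))ᵀ *
      (B (1, 0) * B (1, 1) * (B (1, 0))ᵀ * (B (1, 1))ᵀ)) := by
  simp only [blk_inv hθ (hA _) (hB _), blk_mul hθ, List.ofFn_succ, List.ofFn_zero, List.prod_cons,
    List.prod_nil, mul_one]
  rfl

theorem zopen : ZOpen (Hom 2 (pts SS ℝ)) (Omg θ) := by
  let Xm : Fin 2 × Fin 2 → Matrix I6 I6 (MvPolynomial ((Fin 2 × Fin 2) × I6 × I6) ℝ) :=
    fun i => Matrix.of fun a b => MvPolynomial.X (i, a, b)
  refine ⟨{fA 1 (fun i => pr (MvPolynomial.C θ) (Xm i)) *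
    fA (-1) (fun i => pr (-MvPolynomial.C θ) (Xm i))}, ?_⟩
  ext ρ
  have e : ∀ i, (Xm i).map (MvPolynomial.eval fun x : (Fin 2 × Fin 2) × I6 × I6 =>
      ρ x.1 x.2.1 x.2.2) = ρ i := fun i => by ext a b; simp [Xm]
  simp only [Set.mem_setOf_eq, Set.mem_singleton_iff, exists_eq_left, map_mul, map_fA, pr_map, e,
    map_one, map_neg, MvPolynomial.eval_C, mul_ne_zero_iff]
  constructor
  · rintro ⟨A, hA, B, hB, rfl⟩
    refine ⟨⟨fun i => (mem_pts hθ).mpr ⟨_, _, hA.1 i, hB.1 i, rfl⟩, ?_⟩, ?_, ?_⟩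
    · rw [rel_blk hθ hA.1 hB.1, hA.2.1, hB.2.1, blk_one]
    · simp only [pr_blk1 hθ]; exact hA.2.2
    · simp only [pr_blk2 hθ]; exact hB.2.2
  · rintro ⟨⟨h1, h2⟩, h3, h4⟩
    choose A B hA hB h using fun i => (mem_pts hθ).mp (h1 i)
    obtain rfl : ρ = fun i => blk θ (A i) (B i) := funext h
    rw [rel_blk hθ hA hB, ← blk_one (θ := θ)] at h2
    have r1 := congrArg (pr θ) h2
    have r2 := congrArg (pr (-θ)) h2
    simp only [pr_blk1 hθ, pr_blk2 hθ] at r1 r2 h3 h4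
    exact ⟨A, ⟨hA, r1, h3⟩, B, ⟨hB, r2, h4⟩, rfl⟩

theorem conj_blk {g k : M3 ℝ} (hg : SO g) (hk : SO k) (A B : Tup ℝ) :
    conj (blk θ g k) (fun i => blk θ (A i) (B i)) =
      fun i => blk θ (g * A i * gᵀ) (k * B i * kᵀ) := by
  funext i
  simp only [conj, blk_inv hθ hg hk, blk_mul hθ]

theorem invar {h : Matrix I6 I6 ℝ} (hh : h ∈ pts SS ℝ) {ρ : T6} (hρ : ρ ∈ Omg θ) :
    conj h ρ ∈ Omg θ ∧ (conj h ρ = ρ → h = 1) := by
  obtain ⟨g, k, hg, hk, rfl⟩ := (mem_pts hθ).mp hh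
  obtain ⟨A, hA, B, hB, rfl⟩ := hρ
  rw [conj_blk hθ hg hk]
  refine ⟨⟨_, (F1_conj (by norm_num) hA hg).1, _, (F1_conj (by norm_num) hB hk).1, rfl⟩,
    fun e => ?_⟩
  have e1 : g = 1 := free1 (by norm_num) hA hg (funext fun i => by
    simpa only [pr_blk1 hθ] using congrArg (pr θ) (congrFun e i))
  have e2 : k = 1 := free1 (by norm_num) hB hk (funext fun i => by
    simpa only [pr_blk2 hθ] using congrArg (pr (-θ)) (congrFun e i))
  rw [e1, e2, blk_one]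

theorem not_rat (hi : Irrational θ) {ρ : T6} (hρ : ρ ∈ Omg θ)
    (M : Fin 2 × Fin 2 → Matrix I6 I6 ℚ) (h : ∀ i, ρ i = (M i).map (fun x : ℚ => (x : ℝ))) :
    False := by
  obtain ⟨A, hA, B, hB, rfl⟩ := hρ
  have key : ∀ e : ℝ, Polynomial.aeval e (G4 (-1)
      (cay (pr Polynomial.X ((M (0, 0)).map Polynomial.C)))
      (cay (pr Polynomial.X ((M (0, 1)).map Polynomial.C)))
      (cay (pr Polynomial.X ((M (1, 0)).map Polynomial.C)))
      (cay (pr Polynomial.X ((M (1, 1)).map Polynomial.C)))) =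
      G4 (-1) (cay (pr e (blk θ (A (0, 0)) (B (0, 0))))) (cay (pr e (blk θ (A (0, 1)) (B (0, 1)))))
        (cay (pr e (blk θ (A (1, 0)) (B (1, 0))))) (cay (pr e (blk θ (A (1, 1)) (B (1, 1))))) := by
    intro e
    have e1 : ∀ i, ((M i).map Polynomial.C).map (Polynomial.aeval (R := ℚ) e).toRingHom =
        blk θ (A i) (B i) := fun i => by
      rw [show blk θ (A i) (B i) = _ from h i]; ext a b; simp
    have e2 : (Polynomial.aeval (R := ℚ) e).toRingHom Polynomial.X = e := by simp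
    have := map_G4 (Polynomial.aeval (R := ℚ) e).toRingHom (-1)
      (cay (pr Polynomial.X ((M (0, 0)).map Polynomial.C)))
      (cay (pr Polynomial.X ((M (0, 1)).map Polynomial.C)))
      (cay (pr Polynomial.X ((M (1, 0)).map Polynomial.C)))
      (cay (pr Polynomial.X ((M (1, 1)).map Polynomial.C)))
    simp only [qm_cay, pr_map, e1, e2, map_neg, map_one] at this
    exact this
  have k1 := key θ
  have k2 := key (-θ)
  simp only [pr_blk1 hθ, pr_blk2 hθ] at k1 k2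
  rw [G4_zero hA] at k1
  rw [galois hθ hi _ k1] at k2
  exact G4_ne hB k2.symm

theorem chart : GlobalChart (EuclideanSpace ℝ (Fin 12)) (Omg θ)
    fun x y => ∃ h ∈ pts SS ℝ, y.1 = conj h x.1 := by
  obtain ⟨L⟩ : Nonempty (((Fin 6 → ℝ) × (Fin 6 → ℝ)) ≃L[ℝ] EuclideanSpace ℝ (Fin 12)) :=
    ⟨ContinuousLinearEquiv.ofFinrankEq (by simp)⟩
  have p1 : (1 : ℝ) * 1 = 1 := by norm_num
  have p2 : (-1 : ℝ) * -1 = 1 := by norm_num
  refine chart_of
    (fun ρ => L (F1 1 (fun i => pr θ (ρ i)), F1 (-1) (fun i => pr (-θ) (ρ i))))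
    (fun v i => blk θ (s1 1 (L.symm v).1 i) (s1 (-1) (L.symm v).2 i))
    (L.symm ⁻¹' (U 1 ×ˢ U (-1))) (((U_open p1).prod (U_open p2)).preimage L.symm.continuous)
    ?_ ?_ ?_ ?_ ?_ ?_
  · intro ρ hρ
    have en : ∀ k a b, ContDiffAt ℝ ∞ (fun z : T6 => z k a b) ρ := fun k a b =>
      contDiffAt_pi.mp (contDiffAt_pi.mp (contDiffAt_pi.mp
        (contDiffAt_id (E := Fin 2 × Fin 2 → I6 → I6 → ℝ)) k) a) b
    have pe : ∀ e k i j, ContDiffAt ℝ ∞ (fun z : T6 => pr e (z k) i j) ρ := fun e k i j =>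
      (en k _ _).add (contDiffAt_const.mul (en k _ _))
    obtain ⟨A, hA, B, hB, rfl⟩ := hρ
    refine (L.contDiff.contDiffAt.comp _ (ContDiffAt.prodMk
      (sm_F1 p1 (A := fun z : T6 => fun i => pr θ (z i)) (pe θ) ?_)
      (sm_F1 p2 (A := fun z : T6 => fun i => pr (-θ) (z i)) (pe (-θ)) ?_))).contDiffWithinAt
    · simpa only [pr_blk1 hθ] using hA
    · simpa only [pr_blk2 hθ] using hB
  · intro v hv
    have l := (L.symm.contDiff (n := ∞)).contDiffAt (x := v)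
    have a := sm_s1 p1 (u := fun z => (L.symm z).1) l.fst hv.1
    have b := sm_s1 p2 (u := fun z => (L.symm z).2) l.snd hv.2
    refine ContDiffAt.contDiffWithinAt (contDiffAt_pi.mpr fun k => ?_)
    refine (contDiffAt_pi (F' := fun _ : I6 => I6 → ℝ)).mpr fun i => contDiffAt_pi.mpr fun j => ?_
    rcases i with i | i <;> rcases j with j | j
    · exact contDiffAt_const.mul ((a k i j).add (b k i j))
    · exact contDiffAt_const.mul ((a k i j).sub (b k i j))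
    · exact contDiffAt_const.mul ((a k i j).sub (b k i j))
    · exact contDiffAt_const.mul ((a k i j).add (b k i j))
  · intro v hv
    refine ⟨⟨_, (s1_spec p1 hv.1).1, _, (s1_spec p2 hv.2).1, rfl⟩, ?_⟩
    simp only [pr_blk1 hθ, pr_blk2 hθ]
    rw [(s1_spec p1 hv.1).2, (s1_spec p2 hv.2).2]
    exact L.apply_symm_apply v
  · rintro _ ⟨A, hA, B, hB, rfl⟩
    simp only [pr_blk1 hθ, pr_blk2 hθ, Set.mem_preimage, L.symm_apply_apply]
    exact ⟨(F1_spec p1 hA).1, (F1_spec p2 hB).1⟩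
  · rintro ⟨_, A, hA, B, hB, rfl⟩ ⟨y, hy⟩ ⟨h, hh, e⟩
    obtain ⟨g, k, hg, hk, rfl⟩ := (mem_pts hθ).mp hh
    simp only [conj_blk hθ hg hk] at e
    subst e
    simp only [pr_blk1 hθ, pr_blk2 hθ]
    rw [(F1_conj p1 hA hg).2, (F1_conj p2 hB hk).2]
  · rintro ⟨_, A, hA, B, hB, rfl⟩
    obtain ⟨g, hg, e1⟩ := (F1_spec p1 hA).2
    obtain ⟨k, hk, e2⟩ := (F1_spec p2 hB).2
    refine ⟨_, (mem_pts hθ).mpr ⟨g, k, hg, hk, rfl⟩, ?_⟩
    simp only [pr_blk1 hθ, pr_blk2 hθ, L.symm_apply_apply, conj_blk hθ hg hk]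
    funext i
    rw [← congrFun e1 i, ← congrFun e2 i]

omit hθ in
theorem Omg_nonempty : (Omg θ).Nonempty := by
  obtain ⟨u, hu⟩ := U_nonempty (Or.inl rfl)
  obtain ⟨v, hv⟩ := U_nonempty (Or.inr rfl)
  exact ⟨_, _, (s1_spec (by norm_num) hu).1, _, (s1_spec (by norm_num) hv).1, rfl⟩

end Pool.Agent.H.MP_f64102_gt
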